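import Mathlib

/-!
Real analysis for the bound on `t(3,n)`.
-/

set_option autoImplicit false

namespace Pool.Agent.Helper710_TMix

/-- The comparison function `C x^(3/2) / sqrt (log (x+3))`. -/
noncomputable def psi (C x : ℝ) : ℝ := C * (x * Real.sqrt x / Real.sqrt (Real.log (x + 3)))

lemma one_le_log (x : ℝ) (hx : 0 ≤ x) : 1 ≤ Real.log (x + 3) := by
  rw [Real.le_log_iff_exp_le (by linarith)]
  have := Real.exp_one_lt_d9
  linarith

lemma mono_div (x m : ℝ) (hx : 0 ≤ x) (hxm : x ≤ m) :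
    x / Real.sqrt (Real.log (x + 3)) ≤ m / Real.sqrt (Real.log (m + 3)) := by
  have h1 := one_le_log x hx
  have h2 := one_le_log m (hx.trans hxm)
  have s1 : 0 < Real.sqrt (Real.log (x + 3)) := Real.sqrt_pos.mpr (by linarith)
  have s2 : 0 < Real.sqrt (Real.log (m + 3)) := Real.sqrt_pos.mpr (by linarith)
  rw [div_le_div_iff₀ s1 s2]
  have hlog : x * Real.log (m + 3) ≤ m * Real.log (x + 3) := by
    have h3 : Real.log (m + 3) ≤ Real.log (x + 3) + (m - x) / (x + 3) := by
      have h4 : Real.log ((m + 3) / (x + 3)) ≤ (m + 3) / (x + 3) - 1 :=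
        Real.log_le_sub_one_of_pos (by apply div_pos <;> linarith)
      rw [Real.log_div (by linarith) (by linarith)] at h4
      have h5 : (m + 3) / (x + 3) - 1 = (m - x) / (x + 3) := by
        field_simp; ring
      linarith
    have h6 : x * ((m - x) / (x + 3)) ≤ m - x := by
      rw [mul_div_assoc', div_le_iff₀ (by linarith)]
      nlinarith
    have h7 : m - x ≤ (m - x) * Real.log (x + 3) := by nlinarith
    nlinarith
  have h8 : x ^ 2 * Real.log (m + 3) ≤ m ^ 2 * Real.log (x + 3) := by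
    have h9 : 0 ≤ m * Real.log (x + 3) := mul_nonneg (hx.trans hxm) (by linarith)
    nlinarith [mul_le_mul_of_nonneg_left hlog hx, mul_le_mul_of_nonneg_right hxm h9]
  calc x * Real.sqrt (Real.log (m + 3)) = Real.sqrt (x ^ 2 * Real.log (m + 3)) := by
        rw [Real.sqrt_mul (sq_nonneg x), Real.sqrt_sq hx]
    _ ≤ Real.sqrt (m ^ 2 * Real.log (x + 3)) := Real.sqrt_le_sqrt h8
    _ = m * Real.sqrt (Real.log (x + 3)) := by
        rw [Real.sqrt_mul (sq_nonneg m), Real.sqrt_sq (hx.trans hxm)]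

lemma sqrt_sub_le (m D : ℝ) (hm : 0 < m) (hDm : D ≤ m) :
    Real.sqrt (m - D) ≤ Real.sqrt m * (1 - D / m / 2) := by
  have hy1 : D / m ≤ 1 := by rw [div_le_one hm]; exact hDm
  have h : m - D ≤ m * (1 - D / m / 2) ^ 2 := by
    have : D = m * (D / m) := by field_simp
    have h2 : m - D = m * (1 - D / m) := by rw [mul_sub, mul_one, ← this]
    rw [h2]
    apply mul_le_mul_of_nonneg_left _ hm.le
    nlinarith [sq_nonneg (D / m)]
  calc Real.sqrt (m - D) ≤ Real.sqrt (m * (1 - D / m / 2) ^ 2) := Real.sqrt_le_sqrt h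
    _ = Real.sqrt m * (1 - D / m / 2) := by
        rw [Real.sqrt_mul hm.le, Real.sqrt_sq (by linarith)]

lemma psi_coarse (C m D : ℝ) (hC : 0 ≤ C) (hm : 0 < m) (hD : 0 ≤ D) (hDm : D ≤ m) :
    psi C (m - D) ≤ psi C m * (1 - D / m / 2) := by
  have hy1 : D / m ≤ 1 := by rw [div_le_one hm]; exact hDm
  unfold psi
  rw [mul_assoc]
  apply mul_le_mul_of_nonneg_left _ hC
  have h1 := mono_div (m - D) m (by linarith) (by linarith)
  have h2 := sqrt_sub_le m D hm hDm
  have s2 : 0 < Real.sqrt (Real.log (m + 3)) := Real.sqrt_pos.mpr (by linarith [one_le_log m hm.le])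
  calc (m - D) * Real.sqrt (m - D) / Real.sqrt (Real.log (m - D + 3))
      = ((m - D) / Real.sqrt (Real.log (m - D + 3))) * Real.sqrt (m - D) := by ring
    _ ≤ (m / Real.sqrt (Real.log (m + 3))) * (Real.sqrt m * (1 - D / m / 2)) := by
        apply mul_le_mul h1 h2 (Real.sqrt_nonneg _)
        positivity
    _ = m * Real.sqrt m / Real.sqrt (Real.log (m + 3)) * (1 - D / m / 2) := by ring

lemma psi_fine (C m D δ : ℝ) (hC : 0 ≤ C) (hm : 0 < m) (hD : 0 ≤ D) (hδ : δ ≤ 1 / 4)
    (hDm : D ≤ δ * m) :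
    psi C (m - D) ≤ psi C m * (1 - (3 / 2 - δ / 2 - 2 / Real.log (m + 3)) * (D / m)) := by
  have hl := one_le_log m hm.le
  set ℓ := Real.log (m + 3) with hℓ
  set y := D / m with hy
  have hy0 : 0 ≤ y := by positivity
  have hyδ : y ≤ δ := by rw [hy, div_le_iff₀ hm]; exact hDm
  have hDm' : D ≤ m := by nlinarith
  set x := m - D with hx
  have hx0 : 0 ≤ x := by rw [hx]; linarith
  have hlx := one_le_log x hx0
  set u := 2 * y / ℓ with hu
  have hu0 : 0 ≤ u := by positivity
  have hu1 : u ≤ 1 / 2 := by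
    rw [hu, div_le_iff₀ (by linarith)]; nlinarith
  -- log x + 3 is not much smaller
  have hlog : ℓ * (1 - u) ≤ Real.log (x + 3) := by
    have h1 : ℓ * (1 - u) = ℓ - 2 * y := by rw [hu]; field_simp
    rw [h1]
    have h2 : Real.log ((m + 3) / (x + 3)) ≤ (m + 3) / (x + 3) - 1 :=
      Real.log_le_sub_one_of_pos (by apply div_pos <;> linarith)
    rw [Real.log_div (by linarith) (by linarith)] at h2
    have h3 : (m + 3) / (x + 3) - 1 ≤ 2 * y := by
      rw [sub_le_iff_le_add, div_le_iff₀ (by linarith)]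
      have hD' : D = y * m := by rw [hy]; field_simp
      have hx' : x = m - y * m := by rw [hx, hD']
      rw [hx']
      nlinarith [mul_nonneg hy0 hm.le, mul_nonneg hy0 hy0, mul_nonneg (mul_nonneg hy0 hm.le) (sub_nonneg.mpr (hyδ.trans hδ))]
    linarith
  have hsq : Real.sqrt ℓ ≤ (1 + u) * Real.sqrt (Real.log (x + 3)) := by
    have h1 : ℓ ≤ (1 + u) ^ 2 * Real.log (x + 3) := by
      have h2 : ℓ ≤ (1 + u) ^ 2 * (ℓ * (1 - u)) := by
        have : 1 ≤ (1 + u) ^ 2 * (1 - u) := by nlinarith [mul_nonneg hu0 hu0, mul_nonneg hu0 (sub_nonneg.mpr hu1)]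
        nlinarith
      exact h2.trans (mul_le_mul_of_nonneg_left hlog (by positivity))
    calc Real.sqrt ℓ ≤ Real.sqrt ((1 + u) ^ 2 * Real.log (x + 3)) := Real.sqrt_le_sqrt h1
      _ = (1 + u) * Real.sqrt (Real.log (x + 3)) := by
          rw [Real.sqrt_mul (by positivity), Real.sqrt_sq (by linarith)]
  have s1 : 0 < Real.sqrt (Real.log (x + 3)) := Real.sqrt_pos.mpr (by linarith)
  have s2 : 0 < Real.sqrt ℓ := Real.sqrt_pos.mpr (by linarith)
  have h2 := sqrt_sub_le m D hm hDm'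
  rw [← hy] at h2
  unfold psi
  rw [mul_assoc]
  apply mul_le_mul_of_nonneg_left _ hC
  rw [← hℓ]
  have hinv : 1 / Real.sqrt (Real.log (x + 3)) ≤ (1 + u) / Real.sqrt ℓ := by
    rw [div_le_div_iff₀ s1 s2]; linarith
  have hxy : x = m * (1 - y) := by rw [hx, hy]; field_simp
  have hpoly : (1 - y) * (1 - y / 2) * (1 + u) ≤ 1 - (3 / 2 - δ / 2 - 2 / ℓ) * y := by
    have e : 2 / ℓ * y = u := by rw [hu]; ring
    have h3 : (1 - y) * (1 - y / 2) ≤ 1 - (3 / 2 - δ / 2) * y := by nlinarith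
    have h4 : (1 - y) * (1 - y / 2) ≤ 1 := by nlinarith
    nlinarith [mul_le_mul_of_nonneg_right h4 hu0]
  calc x * Real.sqrt x / Real.sqrt (Real.log (x + 3))
      = x * Real.sqrt x * (1 / Real.sqrt (Real.log (x + 3))) := by ring
    _ ≤ x * (Real.sqrt m * (1 - y / 2)) * ((1 + u) / Real.sqrt ℓ) := by
        apply mul_le_mul _ hinv (by positivity)
        · apply mul_nonneg hx0
          apply mul_nonneg (Real.sqrt_nonneg _)
          linarith
        · exact mul_le_mul_of_nonneg_left h2 hx0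
    _ = m * Real.sqrt m / Real.sqrt ℓ * ((1 - y) * (1 - y / 2) * (1 + u)) := by
        rw [hxy]; ring
    _ ≤ m * Real.sqrt m / Real.sqrt ℓ * (1 - (3 / 2 - δ / 2 - 2 / ℓ) * y) := by
        apply mul_le_mul_of_nonneg_left hpoly; positivity

/-- The numerical contradiction. -/
theorem final_contra (C : ℝ) (hC0 : 0 < C) (hC : 8 / 3 < C ^ 2) :
    ∃ ε : ℝ, 0 < ε ∧ ε < 1 ∧ ∀ D1 : ℕ, ∃ m1 : ℕ, 1 ≤ m1 ∧ ∀ m : ℕ, m1 ≤ m → ∀ D : ℕ, D ≤ m →
      ∀ N : ℝ, psi C m < N → N ≤ m * (2 * (1 + D)) →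
        (D1 ≤ D → N * ((1 - ε) * Real.log D) ≤ m * D) →
        (D : ℝ) + 2 * m ≤ psi C m - psi C (m - D) := by
  set ε : ℝ := min (1 / 4) ((1 - (8 / 3) / C ^ 2) / 8) with hε
  have hC2 : 0 < C ^ 2 := by positivity
  have hq : (8 / 3) / C ^ 2 < 1 := by rw [div_lt_one hC2]; exact hC
  have hε0 : 0 < ε := by
    rw [hε]; apply lt_min <;> linarith
  have hε4 : ε ≤ 1 / 4 := min_le_left _ _
  have hεC : 8 / 3 ≤ (1 - ε) ^ 4 * C ^ 2 := by
    have h1 : ε ≤ (1 - (8 / 3) / C ^ 2) / 8 := min_le_right _ _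
    have h2 : 1 - 4 * ε ≤ (1 - ε) ^ 4 := by nlinarith [sq_nonneg ε, sq_nonneg (1 - ε), mul_pos hε0 hε0, mul_pos (mul_pos hε0 hε0) hε0]
    have h3 : (8 / 3) / C ^ 2 ≤ 1 - 4 * ε := by linarith
    calc 8 / 3 = (8 / 3) / C ^ 2 * C ^ 2 := by field_simp
      _ ≤ (1 - ε) ^ 4 * C ^ 2 := mul_le_mul_of_nonneg_right (h3.trans h2) hC2.le
  refine ⟨ε, hε0, by linarith, ?_⟩
  intro D1
  -- thresholds
  set S0 : ℝ := max (2 * (D1 + 1) / C) (max (1 / (ε * C)) (12 / (C * ε))) with hS0
  set Z0 : ℝ := max (max (64 / (C * ε ^ 2)) (6 * (S0 + 1))) (max (4 / ε) 4) with hZ0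
  obtain ⟨m1, hm1⟩ := exists_nat_gt (Real.exp Z0)
  refine ⟨m1 + 1, by omega, ?_⟩
  intro m hm D hDm N hN hN2 hN3
  have hmr : Real.exp Z0 < m := lt_of_lt_of_le hm1 (by exact_mod_cast (by omega : m1 ≤ m))
  have hm0 : (0 : ℝ) < m := lt_trans (Real.exp_pos _) hmr
  set z := Real.log ((m : ℝ) + 3) with hz
  have hzZ : Z0 < z := by
    rw [hz, ← Real.log_exp Z0]
    exact Real.log_lt_log (Real.exp_pos _) (by linarith)
  have hez : Real.exp z = m + 3 := by rw [hz, Real.exp_log (by linarith)]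
  have hz1 : 64 / (C * ε ^ 2) ≤ z := by
    have := le_trans (le_max_left _ _) (le_max_left (max (64 / (C * ε ^ 2)) (6 * (S0 + 1))) (max (4 / ε) 4))
    linarith [hZ0 ▸ this]
  have hz2 : 6 * (S0 + 1) ≤ z := by
    have := le_trans (le_max_right _ _) (le_max_left (max (64 / (C * ε ^ 2)) (6 * (S0 + 1))) (max (4 / ε) 4))
    linarith [hZ0 ▸ this]
  have hz3 : 4 / ε ≤ z := by
    have := le_trans (le_max_left _ _) (le_max_right (max (64 / (C * ε ^ 2)) (6 * (S0 + 1))) (max (4 / ε) 4))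
    linarith [hZ0 ▸ this]
  have hz4 : 4 ≤ z := by
    have := le_trans (le_max_right _ _) (le_max_right (max (64 / (C * ε ^ 2)) (6 * (S0 + 1))) (max (4 / ε) 4))
    linarith [hZ0 ▸ this]
  have hS0pos : 0 < S0 := lt_of_lt_of_le (by positivity) (le_max_left _ _)
  set s := Real.sqrt m / Real.sqrt z with hs
  have hzpos : 0 < z := by linarith
  have hsz : 0 < Real.sqrt z := Real.sqrt_pos.mpr hzpos
  have hspos : 0 < s := by
    rw [hs]; exact div_pos (Real.sqrt_pos.mpr hm0) hsz
  have hs2 : s ^ 2 * z = m := by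
    rw [hs, div_pow, Real.sq_sqrt hm0.le, Real.sq_sqrt hzpos.le]; field_simp
  have hpsi : psi C m = C * m * s := by
    unfold psi; rw [← hz, hs]; ring
  -- s is large
  have hexp3 : z ^ 3 / 6 ≤ m + 3 := by
    have := Real.pow_div_factorial_le_exp z hzpos.le 3
    rw [hez] at this
    simpa [Nat.factorial] using this
  have hsS : S0 ≤ s := by
    have h1 : S0 ^ 2 * z ≤ s ^ 2 * z := by
      rw [hs2]
      have h2 : S0 ^ 2 * z ≤ z ^ 3 / 6 - 3 := by
        have h3 : S0 + 1 ≤ z / 6 := by linarith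
        have h4 : (S0 + 1) ^ 2 ≤ (z / 6) ^ 2 := by
          apply pow_le_pow_left₀ (by linarith) h3
        nlinarith [mul_le_mul_of_nonneg_right h4 hzpos.le, hS0pos]
      linarith
    have h2 : S0 ^ 2 ≤ s ^ 2 := le_of_mul_le_mul_right h1 hzpos
    exact (pow_le_pow_iff_left₀ hS0pos.le hspos.le (by norm_num)).mp h2
  have hs1 : 2 * (D1 + 1) / C ≤ s := le_trans (le_max_left _ _) hsS
  have hs3 : 1 / (ε * C) ≤ s := le_trans (le_trans (le_max_left _ _) (le_max_right _ _)) hsS
  have hs4 : 12 / (C * ε) ≤ s := le_trans (le_trans (le_max_right _ _) (le_max_right _ _)) hsS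
  -- D is large
  have hDs : C * s / 2 < 1 + D := by
    have h1 : C * m * s < m * (2 * (1 + D)) := by rw [← hpsi]; linarith
    nlinarith
  have hDD1 : D1 ≤ D := by
    have h1 : (D1 : ℝ) + 1 ≤ C * s / 2 := by
      rw [div_le_iff₀ hC0] at hs1; linarith
    have : (D1 : ℝ) < D := by linarith
    exact_mod_cast this.le
  have hD3 := hN3 hDD1
  -- log D
  have hlogD : (1 - ε) * z / 2 ≤ Real.log D := by
    have hkey : Real.exp ((1 - ε) * z / 2) ≤ D := by
      have h1 : Real.exp ((1 - ε) * z / 2) * Real.exp (ε * z / 2) = Real.exp (z / 2) := by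
        rw [← Real.exp_add]; congr 1; ring
      have h2 : 8 * z / C ≤ Real.exp (ε * z / 2) := by
        have h3 := Real.pow_div_factorial_le_exp (ε * z / 2) (by positivity) 2
        have h4 : 8 * z / C ≤ (ε * z / 2) ^ 2 / (Nat.factorial 2 : ℕ) := by
          rw [div_le_iff₀ (by positivity)] at hz1
          rw [div_le_iff₀ hC0]
          have : ((Nat.factorial 2 : ℕ) : ℝ) = 2 := by norm_num [Nat.factorial]
          rw [this]
          have h44 := mul_le_mul_of_nonneg_right hz1 hzpos.le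
          have h45 : (ε * z / 2) ^ 2 / 2 * C = z * (C * ε ^ 2) * z / 8 := by ring
          rw [h45]
          linarith
        exact h4.trans h3
      have h5 : Real.exp (z / 2) ≤ 2 * Real.sqrt m := by
        have h6 : Real.exp (z / 2) = Real.sqrt (m + 3) := by
          rw [← hez, Real.exp_half]
        rw [h6]
        have hm1' : (1 : ℝ) ≤ m := by
          have : 4 ≤ Z0 := le_trans (le_max_right _ _) (le_max_right _ _)
          have := Real.add_one_le_exp Z0
          linarith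
        calc Real.sqrt (m + 3) ≤ Real.sqrt (2 ^ 2 * m) := Real.sqrt_le_sqrt (by linarith)
          _ = 2 * Real.sqrt m := by
              rw [Real.sqrt_mul (by norm_num), Real.sqrt_sq (by norm_num)]
      have h7 : Real.sqrt m = s * Real.sqrt z := by rw [hs]; field_simp
      have h8 : Real.sqrt z ≤ z := by
        rw [Real.sqrt_le_left (by linarith)]
        nlinarith
      set E := Real.exp ((1 - ε) * z / 2) with hE
      have hE1 : 1 ≤ E := by
        rw [hE]; apply Real.one_le_exp; apply div_nonneg _ (by norm_num)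
        exact mul_nonneg (by linarith) hzpos.le
      have h9 : E * (8 * z / C) ≤ 2 * (s * z) := by
        calc E * (8 * z / C) ≤ E * Real.exp (ε * z / 2) := mul_le_mul_of_nonneg_left h2 (by linarith)
          _ = Real.exp (z / 2) := h1
          _ ≤ 2 * (s * Real.sqrt z) := by rw [← h7]; exact h5
          _ ≤ 2 * (s * z) := by nlinarith
      have h10 : E * 8 ≤ 2 * s * C := by
        have h11 : E * (8 * z / C) = E * 8 / C * z := by ring
        rw [h11, ← mul_assoc] at h9
        have h12 := le_of_mul_le_mul_right h9 hzpos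
        rwa [div_le_iff₀ hC0] at h12
      linarith
    rw [← Real.log_exp ((1 - ε) * z / 2)]
    exact Real.log_le_log (Real.exp_pos _) hkey
  -- lower bound for D
  have hDlow : C * s * ((1 - ε) ^ 2 * (z / 2)) ≤ D := by
    have h1 : C * m * s * ((1 - ε) * ((1 - ε) * z / 2)) ≤ m * D := by
      calc C * m * s * ((1 - ε) * ((1 - ε) * z / 2))
          ≤ C * m * s * ((1 - ε) * Real.log D) := by
            apply mul_le_mul_of_nonneg_left _ (by positivity)
            exact mul_le_mul_of_nonneg_left hlogD (by linarith)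
        _ ≤ N * ((1 - ε) * Real.log D) := by
            apply mul_le_mul_of_nonneg_right _
            · apply mul_nonneg (by linarith)
              exact le_trans (div_nonneg (mul_nonneg (by linarith) hzpos.le) (by norm_num)) hlogD
            · rw [← hpsi]; exact hN.le
        _ ≤ m * D := hD3
    have h2 : m * (C * s * ((1 - ε) ^ 2 * (z / 2))) ≤ m * D := by
      calc m * (C * s * ((1 - ε) ^ 2 * (z / 2))) = C * m * s * ((1 - ε) * ((1 - ε) * z / 2)) := by ring
        _ ≤ _ := h1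
    exact le_of_mul_le_mul_left h2 hm0
  have hDmr : (D : ℝ) ≤ m := by exact_mod_cast hDm
  have hD0 : (0 : ℝ) ≤ D := Nat.cast_nonneg _
  by_cases hcase : (D : ℝ) ≤ ε * m
  · have h1 := psi_fine C m D ε hC0.le hm0 hD0 hε4 hcase
    rw [← hz] at h1
    have h2 : 3 / 2 * (1 - ε) ≤ 3 / 2 - ε / 2 - 2 / z := by
      have : 2 / z ≤ ε / 2 := by
        rw [div_le_iff₀ hzpos]
        rw [div_le_iff₀ hε0] at hz3
        linarith
      linarith
    have h3 : psi C m * (3 / 2 * (1 - ε) * (D / m)) ≤ psi C m - psi C (m - D) := by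
      have h4 : 0 ≤ (D : ℝ) / m := by positivity
      have h5 : 0 ≤ psi C m := by rw [hpsi]; positivity
      have h6 := mul_le_mul_of_nonneg_left (mul_le_mul_of_nonneg_right h2 h4) h5
      linarith
    rw [hpsi] at h3
    have h4 : C * m * s * (3 / 2 * (1 - ε) * (D / m)) = 3 / 2 * (1 - ε) * C * s * D := by
      field_simp
    rw [h4, ← hpsi] at h3
    refine le_trans ?_ h3
    have h5 : 1 ≤ ε * C * s := by
      rw [div_le_iff₀ (by positivity)] at hs3
      linarith
    -- 3/2 (1-ε) C s D ≥ D + 3/2 (1-ε)^2 C s D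
    have h6 : (D : ℝ) ≤ 3 / 2 * (1 - ε) * (ε * C * s) * D := by
      have : 1 ≤ 3 / 2 * (1 - ε) * (ε * C * s) := by nlinarith
      nlinarith
    have h7 : 2 * (m : ℝ) ≤ 3 / 2 * (1 - ε) * ((1 - ε) * C * s) * D := by
      have h8 : 3 / 2 * (1 - ε) * ((1 - ε) * C * s) * (C * s * ((1 - ε) ^ 2 * (z / 2)))
          ≤ 3 / 2 * (1 - ε) * ((1 - ε) * C * s) * D := by
        apply mul_le_mul_of_nonneg_left hDlow
        have : 0 ≤ 1 - ε := by linarith
        positivity
      refine le_trans ?_ h8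
      have h9 : 3 / 2 * (1 - ε) * ((1 - ε) * C * s) * (C * s * ((1 - ε) ^ 2 * (z / 2)))
          = 3 / 4 * ((1 - ε) ^ 4 * C ^ 2) * (s ^ 2 * z) := by ring
      rw [h9, hs2]
      nlinarith
    have e : 3 / 2 * (1 - ε) * C * s * (D : ℝ) = 3 / 2 * (1 - ε) * (ε * C * s) * D
        + 3 / 2 * (1 - ε) * ((1 - ε) * C * s) * D := by ring
    rw [e]
    linarith
  · push Not at hcase
    have h1 := psi_coarse C m D hC0.le hm0 hD0 hDmr
    have h2 : psi C m * (D / m / 2) ≤ psi C m - psi C (m - D) := by linarith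
    have h3 : psi C m * (D / m / 2) = C * s * D / 2 := by rw [hpsi]; field_simp
    rw [h3] at h2
    refine le_trans ?_ h2
    have h4 : 12 ≤ C * ε * s := by
      rw [div_le_iff₀ (by positivity)] at hs4
      linarith
    have h5 : C * s * (ε * m) ≤ C * s * D := mul_le_mul_of_nonneg_left hcase.le (by positivity)
    have h6 : 12 * (m : ℝ) ≤ C * ε * s * m := mul_le_mul_of_nonneg_right h4 hm0.le
    have h7 : C * s * (ε * m) = C * ε * s * m := by ring
    linarith

end Pool.Agent.Helper710_TMix
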