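import Pool.Agent.Helper710_TMix.HardCore

/-!
Asymptotic form of the lower bound for the independence number of triangle-free graphs.
-/

set_option autoImplicit false
open Finset

namespace Pool.Agent.Helper710_TMix

/-- `(1 - ε) log D / D` of the vertices. -/
theorem shearer (ε : ℝ) (hε : 0 < ε) (hε1 : ε < 1) : ∃ D1 : ℕ, 2 ≤ D1 ∧ ∀ D : ℕ, D1 ≤ D →
    ∀ (V : Type) [Fintype V] [DecidableEq V] (G : SimpleGraph V) [DecidableRel G.Adj],
      (∀ a b c, G.Adj a b → G.Adj a c → ¬ G.Adj b c) →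
      (∀ v, (univ.filter (fun u => G.Adj v u)).card ≤ D) →
      ∃ I : Finset V, (∀ a ∈ I, ∀ b ∈ I, ¬ G.Adj a b) ∧
        (Fintype.card V : ℝ) * ((1 - ε) * Real.log D) ≤ I.card * D := by
  -- parameters
  set l : ℝ := ε / 8 with hl
  have hl0 : 0 < l := by positivity
  set β : ℝ := Real.log (1 + l) with hβ
  have hβ0 : 0 < β := Real.log_pos (by linarith)
  have hβl : β ≤ l := by
    have := Real.log_le_sub_one_of_pos (show (0 : ℝ) < 1 + l by linarith)
    linarith
  set κ : ℝ := 1 + Real.log (l * β) with hκ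
  -- the threshold
  obtain ⟨D1, hD1⟩ := exists_nat_gt (Real.exp (2 * |κ| / ε + 1))
  refine ⟨max D1 2, le_max_right _ _, ?_⟩
  intro D hD V _ _ G _ htf hdeg
  have hD1' : D1 ≤ D := le_trans (le_max_left _ _) hD
  have hDr : Real.exp (2 * |κ| / ε + 1) < D := lt_of_lt_of_le hD1 (by exact_mod_cast hD1')
  have hDpos : (0 : ℝ) < D := lt_trans (Real.exp_pos _) hDr
  have hlog : 2 * |κ| / ε + 1 < Real.log D := by
    rw [← Real.log_exp (2 * |κ| / ε + 1)]
    exact Real.log_lt_log (Real.exp_pos _) hDr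
  have hk : |κ| ≤ ε / 2 * Real.log D := by
    have h1 : 2 * |κ| / ε < Real.log D := by linarith
    rw [div_lt_iff₀ hε] at h1
    linarith
  have hlog0 : 0 < Real.log D := by
    have : 0 ≤ 2 * |κ| / ε := by positivity
    linarith
  have hlb : 0 < l * β := by positivity
  set c : ℝ := Real.log (l * β * D) / β with hc
  have hβc : β * c = Real.log (l * β * D) := by rw [hc]; field_simp
  obtain ⟨I, hI, hbound⟩ := exists_indep G htf D hdeg l c hl0
  refine ⟨I, hI, ?_⟩
  rw [← hβ, hβc, Real.exp_log (by positivity)] at hbound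
  rw [Real.log_mul hlb.ne' hDpos.ne'] at hbound
  have hN : (0 : ℝ) ≤ Fintype.card V := Nat.cast_nonneg _
  have hI0 : (0 : ℝ) ≤ I.card := Nat.cast_nonneg _
  -- lower bound for the left side
  have hx : (1 - ε / 2) * Real.log D ≤ 1 + (Real.log (l * β) + Real.log D) := by
    have := neg_abs_le κ
    rw [hκ] at this hk
    linarith
  have h1 : (Fintype.card V : ℝ) * (β * ((1 - ε / 2) * Real.log D)) ≤
      I.card * ((1 + l) * (l * β * D + β * D)) := by
    refine le_trans ?_ hbound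
    apply mul_le_mul_of_nonneg_left _ hN
    have h2 : 0 ≤ (1 - ε / 2) * Real.log D := mul_nonneg (by linarith) hlog0.le
    calc β * ((1 - ε / 2) * Real.log D) ≤ l * ((1 - ε / 2) * Real.log D) :=
          mul_le_mul_of_nonneg_right hβl h2
      _ ≤ l * (1 + (Real.log (l * β) + Real.log D)) := mul_le_mul_of_nonneg_left hx hl0.le
  have h3 : (Fintype.card V : ℝ) * ((1 - ε / 2) * Real.log D) ≤ I.card * D * (1 + l) ^ 2 := by
    have : β * ((Fintype.card V : ℝ) * ((1 - ε / 2) * Real.log D)) ≤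
        β * (I.card * D * (1 + l) ^ 2) := by nlinarith [h1]
    exact le_of_mul_le_mul_left this hβ0
  have h4 : (1 - ε) * (1 + l) ^ 2 ≤ 1 - ε / 2 := by
    rw [hl]
    nlinarith [hε, hε1, mul_pos hε hε, mul_pos (mul_pos hε hε) hε]
  have hlp : 0 < (1 + l) ^ 2 := by positivity
  have h5 : (Fintype.card V : ℝ) * ((1 - ε) * Real.log D) * (1 + l) ^ 2
      ≤ I.card * D * (1 + l) ^ 2 := by
    calc (Fintype.card V : ℝ) * ((1 - ε) * Real.log D) * (1 + l) ^ 2
        = (Fintype.card V : ℝ) * Real.log D * ((1 - ε) * (1 + l) ^ 2) := by ring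
      _ ≤ (Fintype.card V : ℝ) * Real.log D * (1 - ε / 2) := by
          apply mul_le_mul_of_nonneg_left h4; positivity
      _ = (Fintype.card V : ℝ) * ((1 - ε / 2) * Real.log D) := by ring
      _ ≤ _ := h3
  exact le_of_mul_le_mul_right h5 hlp

/-- A weak bound for all degrees. -/
theorem weak_indep (V : Type) [Fintype V] [DecidableEq V] (G : SimpleGraph V) [DecidableRel G.Adj]
    (htf : ∀ a b c, G.Adj a b → G.Adj a c → ¬ G.Adj b c) (D : ℕ)
    (hD : ∀ v, (univ.filter (fun u => G.Adj v u)).card ≤ D) :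
    ∃ I : Finset V, (∀ a ∈ I, ∀ b ∈ I, ¬ G.Adj a b) ∧
      Fintype.card V ≤ I.card * (2 * (1 + D)) := by
  obtain ⟨I, hI, hb⟩ := exists_indep G htf D hD 1 0 one_pos
  refine ⟨I, hI, ?_⟩
  have h2 : Real.log (1 + 1) ≤ 1 := by
    have := Real.log_le_sub_one_of_pos (show (0 : ℝ) < 1 + 1 by norm_num)
    linarith
  simp only [mul_zero, Real.exp_zero, add_zero, mul_one, one_mul] at hb
  have hI0 : (0 : ℝ) ≤ I.card := Nat.cast_nonneg _
  have hD0 : (0 : ℝ) ≤ D := Nat.cast_nonneg _
  have : (Fintype.card V : ℝ) ≤ I.card * (2 * (1 + D)) := by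
    refine le_trans hb ?_
    apply mul_le_mul_of_nonneg_left _ hI0
    nlinarith
  exact_mod_cast this

end Pool.Agent.Helper710_TMix
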