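import Pool.Agent.Helper710_TMix.Bip
import Pool.Agent.Helper710_TMix.Shearer

/-!
Graphs whose complement has no irredundant set of size three, and graphs whose complement
has upper domination number at most two.
-/

set_option autoImplicit false
open Finset

namespace Pool.Agent.Helper710_TMix

/-- No `3 × 3` submatrix `J - I` in the adjacency matrix. -/
def TG {V : Type*} (H : SimpleGraph V) : Prop :=
  ∀ x1 x2 x3 w1 w2 w3 : V, H.Adj x2 w1 → H.Adj x3 w1 → H.Adj x1 w2 → H.Adj x3 w2 →
    H.Adj x1 w3 → H.Adj x2 w3 → ¬ H.Adj x1 w1 → ¬ H.Adj x2 w2 → ¬ H.Adj x3 w3 → False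

lemma TG.comap {V W : Type*} {H : SimpleGraph V} (hT : TG H) (f : W → V) : TG (H.comap f) := by
  intro x1 x2 x3 w1 w2 w3 h1 h2 h3 h4 h5 h6 h7 h8 h9
  exact hT (f x1) (f x2) (f x3) (f w1) (f w2) (f w3) h1 h2 h3 h4 h5 h6 h7 h8 h9

lemma TG.nice {V : Type*} [Fintype V] [DecidableEq V] {H : SimpleGraph V} (hT : TG H) : Nice H := by
  constructor
  · intro a b c hab hac hbc
    exact hT a b c a b c hab.symm hac.symm hab hbc.symm hac hbc (H.loopless.irrefl _)
      (H.loopless.irrefl _) (H.loopless.irrefl _)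
  · intro S
    induction S using Finset.strongInduction with
    | H S ih =>
      intro hne hpair
      by_cases h3 : 3 ≤ S.card
      · obtain ⟨x1, h1, x2, h2, x3, h3, h12, h13, h23⟩ := Finset.two_lt_card.mp h3
        have key : ∀ x ∈ S, ∀ y ∈ S, x ≠ y → ∃ z, ∀ a ∈ S.erase x, H.Adj a z := by
          intro x hx y hy hxy
          apply ih (S.erase x) (Finset.erase_ssubset hx)
          · exact ⟨y, Finset.mem_erase.mpr ⟨hxy.symm, hy⟩⟩
          · intro a ha b hb
            exact hpair a (Finset.mem_of_mem_erase ha) b (Finset.mem_of_mem_erase hb)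
        obtain ⟨w1, hw1⟩ := key x1 h1 x2 h2 h12
        obtain ⟨w2, hw2⟩ := key x2 h2 x1 h1 h12.symm
        obtain ⟨w3, hw3⟩ := key x3 h3 x1 h1 h13.symm
        have fin : ∀ x w, (∀ a ∈ S.erase x, H.Adj a w) → H.Adj x w → ∃ z, ∀ a ∈ S, H.Adj a z := by
          intro x w h hx
          refine ⟨w, fun a ha => ?_⟩
          by_cases hax : a = x
          · rw [hax]; exact hx
          · exact h a (Finset.mem_erase.mpr ⟨hax, ha⟩)
        by_cases c1 : H.Adj x1 w1
        · exact fin x1 w1 hw1 c1
        by_cases c2 : H.Adj x2 w2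
        · exact fin x2 w2 hw2 c2
        by_cases c3 : H.Adj x3 w3
        · exact fin x3 w3 hw3 c3
        exfalso
        exact hT x1 x2 x3 w1 w2 w3
          (hw1 x2 (Finset.mem_erase.mpr ⟨h12.symm, h2⟩))
          (hw1 x3 (Finset.mem_erase.mpr ⟨h13.symm, h3⟩))
          (hw2 x1 (Finset.mem_erase.mpr ⟨h12, h1⟩))
          (hw2 x3 (Finset.mem_erase.mpr ⟨h23.symm, h3⟩))
          (hw3 x1 (Finset.mem_erase.mpr ⟨h13, h1⟩))
          (hw3 x2 (Finset.mem_erase.mpr ⟨h23, h2⟩)) c1 c2 c3
      · obtain ⟨x, hx⟩ := hne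
        by_cases hy : ∃ y ∈ S, y ≠ x
        · obtain ⟨y, hyS, hyx⟩ := hy
          obtain ⟨z, hxz, hyz⟩ := hpair x hx y hyS
          refine ⟨z, fun a ha => ?_⟩
          by_cases hax : a = x
          · rw [hax]; exact hxz
          by_cases hay : a = y
          · rw [hay]; exact hyz
          exfalso
          apply h3
          have : ({x, y, a} : Finset V) ⊆ S := by
            intro b hb
            simp only [Finset.mem_insert, Finset.mem_singleton] at hb
            rcases hb with rfl | rfl | rfl <;> assumption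
          have hc : ({x, y, a} : Finset V).card = 3 :=
            Finset.card_eq_three.mpr ⟨x, y, a, hyx.symm, fun h => hax h.symm, fun h => hay h.symm, rfl⟩
          rw [← hc]
          exact Finset.card_le_card this
        · push Not at hy
          obtain ⟨z, hxz, _⟩ := hpair x hx x hx
          exact ⟨z, fun a ha => by rw [hy a ha]; exact hxz⟩

/-- If `G` has no irredundant set of size three then its complement satisfies `TG`. -/
lemma TG_compl {V : Type*} [DecidableEq V] (G : SimpleGraph V)
    (h : ¬ ∃ S : Finset V, S.card = 3 ∧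
      ∀ v ∈ S, ∃ w : V, (w = v ∨ G.Adj v w) ∧ ∀ u ∈ S, u ≠ v → ¬ (w = u ∨ G.Adj u w)) :
    TG Gᶜ := by
  intro x1 x2 x3 w1 w2 w3 h21 h31 h12 h32 h13 h23 n1 n2 n3
  apply h
  have d12 : x1 ≠ x2 := fun e => n1 (e ▸ h21)
  have d13 : x1 ≠ x3 := fun e => n1 (e ▸ h31)
  have d23 : x2 ≠ x3 := fun e => n2 (e ▸ h32)
  refine ⟨{x1, x2, x3}, Finset.card_eq_three.mpr ⟨x1, x2, x3, d12, d13, d23, rfl⟩, ?_⟩
  have pos : ∀ x w : V, ¬ Gᶜ.Adj x w → (w = x ∨ G.Adj x w) := by
    intro x w hn
    rw [SimpleGraph.compl_adj] at hn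
    by_cases e : w = x
    · exact Or.inl e
    · right
      by_contra hc
      exact hn ⟨fun h' => e h'.symm, hc⟩
  have neg : ∀ u w : V, Gᶜ.Adj u w → ¬ (w = u ∨ G.Adj u w) := by
    intro u w ha
    rw [SimpleGraph.compl_adj] at ha
    rintro (e | e)
    · exact ha.1 e.symm
    · exact ha.2 e
  intro v hv
  simp only [Finset.mem_insert, Finset.mem_singleton] at hv
  rcases hv with rfl | rfl | rfl
  · refine ⟨w1, pos _ _ n1, ?_⟩
    intro u hu hne
    simp only [Finset.mem_insert, Finset.mem_singleton] at hu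
    rcases hu with rfl | rfl | rfl
    · exact absurd rfl hne
    · exact neg _ _ h21
    · exact neg _ _ h31
  · refine ⟨w2, pos _ _ n2, ?_⟩
    intro u hu hne
    simp only [Finset.mem_insert, Finset.mem_singleton] at hu
    rcases hu with rfl | rfl | rfl
    · exact neg _ _ h12
    · exact absurd rfl hne
    · exact neg _ _ h32
  · refine ⟨w3, pos _ _ n3, ?_⟩
    intro u hu hne
    simp only [Finset.mem_insert, Finset.mem_singleton] at hu
    rcases hu with rfl | rfl | rfl
    · exact neg _ _ h13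
    · exact neg _ _ h23
    · exact absurd rfl hne

/-- Closed neighbourhood of a set. -/
def cnb {V : Type*} [Fintype V] [DecidableEq V] (H : SimpleGraph V) [DecidableRel H.Adj]
    (S : Finset V) : Finset V := univ.filter (fun x => x ∈ S ∨ ∃ s ∈ S, H.Adj s x)

open Classical in
/-- The closed neighbourhood of a set of neighbours of `v` is small. -/
lemma card_cnb_nbr {V : Type*} [Fintype V] [DecidableEq V] {H : SimpleGraph V}
    (hN : Nice H) (v : V) (m : ℕ)
    (hα : ∀ I : Finset V, (∀ a ∈ I, ∀ b ∈ I, ¬ H.Adj a b) → I.card ≤ m)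
    (S : Finset V) (hS : ∀ s ∈ S, H.Adj v s) :
    (cnb H S).card + 1 ≤ S.card + 2 * m := by
  have hL := card_L2 hN v m hα
  have hsub : cnb H S ⊆ S ∪ insert v (univ.filter (fun a => L2 H v a)) := by
    intro x hx
    simp only [cnb, Finset.mem_filter, Finset.mem_univ, true_and] at hx
    simp only [Finset.mem_union, Finset.mem_insert, Finset.mem_filter, Finset.mem_univ, true_and]
    rcases hx with h | ⟨s, hs, hsx⟩
    · exact Or.inl h
    · right
      by_cases hxv : x = v
      · exact Or.inl hxv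
      · right
        exact ⟨hxv, hN.tf s v x (hS s hs).symm hsx, s, hS s hs, hsx.symm⟩
  calc (cnb H S).card + 1
      ≤ (S ∪ insert v (univ.filter (fun a => L2 H v a))).card + 1 :=
        Nat.add_le_add_right (Finset.card_le_card hsub) 1
    _ ≤ S.card + (insert v (univ.filter (fun a => L2 H v a))).card + 1 :=
        Nat.add_le_add_right (Finset.card_union_le _ _) 1
    _ ≤ S.card + ((univ.filter (fun a => L2 H v a)).card + 1) + 1 :=
        Nat.add_le_add_right (Nat.add_le_add_left (Finset.card_insert_le _ _) _) 1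
    _ ≤ S.card + 2 * m := by omega

end Pool.Agent.Helper710_TMix
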