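import Mathlib

/-!
Triangle-free graphs whose open neighbourhoods have the Helly property: the vertices at
distance two from a given vertex induce a bipartite graph.
-/

set_option autoImplicit false
open Finset

namespace Pool.Agent.Helper710_TMix

variable {V : Type*} [Fintype V] [DecidableEq V]

/-- Triangle-free, and the open neighbourhoods have the Helly property. -/
structure Nice (H : SimpleGraph V) : Prop where
  tf : ∀ a b c, H.Adj a b → H.Adj a c → ¬ H.Adj b c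
  helly : ∀ S : Finset V, S.Nonempty → (∀ a ∈ S, ∀ b ∈ S, ∃ z, H.Adj a z ∧ H.Adj b z) →
    ∃ z, ∀ a ∈ S, H.Adj a z

/-- `a` is at distance two from `v`. -/
def L2 (H : SimpleGraph V) (v a : V) : Prop := a ≠ v ∧ ¬ H.Adj v a ∧ ∃ p, H.Adj v p ∧ H.Adj a p

lemma helly3 {H : SimpleGraph V} (hN : Nice H) (a b c : V) (hab : ∃ z, H.Adj a z ∧ H.Adj b z)
    (hac : ∃ z, H.Adj a z ∧ H.Adj c z) (hbc : ∃ z, H.Adj b z ∧ H.Adj c z) :
    ∃ z, H.Adj a z ∧ H.Adj b z ∧ H.Adj c z := by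
  obtain ⟨z1, ha1, hb1⟩ := hab
  obtain ⟨z2, ha2, hc2⟩ := hac
  obtain ⟨z3, hb3, hc3⟩ := hbc
  obtain ⟨z, hz⟩ := hN.helly {a, b, c} ⟨a, by simp⟩ (by
    intro x hx y hy
    simp only [Finset.mem_insert, Finset.mem_singleton] at hx hy
    rcases hx with rfl | rfl | rfl <;> rcases hy with rfl | rfl | rfl
    · exact ⟨z1, ha1, ha1⟩
    · exact ⟨z1, ha1, hb1⟩
    · exact ⟨z2, ha2, hc2⟩
    · exact ⟨z1, hb1, ha1⟩
    · exact ⟨z1, hb1, hb1⟩
    · exact ⟨z3, hb3, hc3⟩
    · exact ⟨z2, hc2, ha2⟩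
    · exact ⟨z3, hc3, hb3⟩
    · exact ⟨z2, hc2, hc2⟩)
  exact ⟨z, hz a (by simp), hz b (by simp), hz c (by simp)⟩

lemma fact1 {H : SimpleGraph V} (hN : Nice H) {v a b : V} (ha : L2 H v a) (hb : L2 H v b)
    (hab : ∃ z, H.Adj a z ∧ H.Adj b z) : ∃ p, H.Adj v p ∧ H.Adj a p ∧ H.Adj b p :=
  helly3 hN v a b ha.2.2 hb.2.2 hab

open Classical in
lemma fact2 {H : SimpleGraph V} (hN : Nice H) {v b : V} (hb : L2 H v b)
    (hne : ∃ a, L2 H v a ∧ H.Adj b a) :
    ∃ c, L2 H v c ∧ H.Adj b c ∧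
      ∀ a, L2 H v a → H.Adj b a → ∀ p, H.Adj v p → H.Adj a p → H.Adj c p := by
  obtain ⟨a0, ha0, hba0⟩ := hne
  set W : Finset V := univ.filter (fun p => H.Adj v p ∧ ∃ a, L2 H v a ∧ H.Adj b a ∧ H.Adj a p) with hW
  obtain ⟨z, hz⟩ := hN.helly (insert b W) ⟨b, by simp⟩ (by
    intro x hx y hy
    rw [Finset.mem_insert] at hx hy
    simp only [hW, Finset.mem_filter, Finset.mem_univ, true_and] at hx hy
    rcases hx with rfl | ⟨hx, a, _, hba, hax⟩ <;> rcases hy with rfl | ⟨hy, a', _, hba', hay⟩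
    · exact ⟨a0, hba0, hba0⟩
    · exact ⟨a', hba', hay.symm⟩
    · exact ⟨a, hax.symm, hba⟩
    · exact ⟨v, hx.symm, hy.symm⟩)
  have hbz : H.Adj b z := hz b (by simp)
  obtain ⟨p0, hvp0, hap0⟩ := ha0.2.2
  have hp0 : H.Adj p0 z := hz p0 (by
    rw [Finset.mem_insert]; right
    simp only [hW, Finset.mem_filter, Finset.mem_univ, true_and]
    exact ⟨hvp0, a0, ha0, hba0, hap0⟩)
  refine ⟨z, ⟨?_, ?_, p0, hvp0, hp0.symm⟩, hbz, ?_⟩
  · rintro rfl
    exact hb.2.1 hbz.symm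
  · exact hN.tf p0 v z hvp0.symm hp0
  · intro a ha hba p hvp hap
    exact (hz p (by
      rw [Finset.mem_insert]; right
      simp only [hW, Finset.mem_filter, Finset.mem_univ, true_and]
      exact ⟨hvp, a, ha, hba, hap⟩)).symm

/-- The graph induced on the second neighbourhood. -/
def KG (H : SimpleGraph V) (v : V) : SimpleGraph V where
  Adj a b := L2 H v a ∧ L2 H v b ∧ H.Adj a b
  symm := ⟨fun _ _ h => ⟨h.2.1, h.1, h.2.2.symm⟩⟩
  loopless := ⟨fun _ h => H.loopless.irrefl _ h.2.2⟩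

open Classical in
theorem exists_bip {H : SimpleGraph V} (hN : Nice H) (v : V) :
    ∃ c : V → Prop, ∀ a b, L2 H v a → L2 H v b → H.Adj a b → (c a ↔ ¬ c b) := by
  set K := KG H v with hK
  set mk := K.connectedComponentMk with hmk
  let P : V → Finset V := fun a => univ.filter (fun p => H.Adj v p ∧ H.Adj a p)
  have htop : ∀ C : K.ConnectedComponent, ∃ a, (∃ u, L2 H v u ∧ mk u = C) →
      (L2 H v a ∧ mk a = C ∧ ∀ b, L2 H v b → mk b = C → (P b).card ≤ (P a).card) := by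
    intro C
    by_cases h : ∃ u, L2 H v u ∧ mk u = C
    · obtain ⟨u, hu, huC⟩ := h
      obtain ⟨a, ha, hmax⟩ := Finset.exists_max_image
        (univ.filter (fun a => L2 H v a ∧ mk a = C)) (fun a => (P a).card)
        ⟨u, by simp [hu, huC]⟩
      simp only [Finset.mem_filter, Finset.mem_univ, true_and] at ha hmax
      exact ⟨a, fun _ => ⟨ha.1, ha.2, fun b hb hbC => hmax b ⟨hb, hbC⟩⟩⟩
    · exact ⟨v, fun h' => absurd h' h⟩
  choose t ht using htop
  refine ⟨fun u => ∀ p, H.Adj v p → H.Adj u p → H.Adj (t (mk u)) p, ?_⟩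
  intro a b ha hb hab
  have hKab : K.Adj a b := ⟨ha, hb, hab⟩
  have hmab : mk a = mk b := SimpleGraph.ConnectedComponent.sound hKab.reachable
  set C := mk a with hC
  obtain ⟨hsL, hsC, hsmax⟩ := ht C ⟨a, ha, rfl⟩
  set s := t C with hs
  have hreach : K.Reachable s a := SimpleGraph.ConnectedComponent.exact hsC
  -- s has a neighbour
  have hsn : ∃ a', L2 H v a' ∧ H.Adj s a' := by
    rw [SimpleGraph.reachable_iff_reflTransGen] at hreach
    rcases hreach.cases_head with h | ⟨c, hc, _⟩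
    · rw [h]; exact ⟨b, hb, hab⟩
    · exact ⟨c, hc.2.1, hc.2.2⟩
  obtain ⟨b', hb'L, hsb', hb'max⟩ := fact2 hN hsL hsn
  have hAB : ∀ p, H.Adj s p → ¬ H.Adj b' p := fun p hp => hN.tf s b' p hsb' hp
  -- the two types of vertices
  let Ev : V → Prop := fun u => L2 H v u ∧ (∀ p, H.Adj v p → H.Adj u p → H.Adj s p) ∧
    ∃ z, L2 H v z ∧ H.Adj u z ∧ ∀ p, H.Adj v p → H.Adj z p → H.Adj b' p
  let Od : V → Prop := fun u => L2 H v u ∧ (∃ p, H.Adj v p ∧ H.Adj u p ∧ H.Adj b' p) ∧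
    ∃ w, L2 H v w ∧ H.Adj u w ∧ ∀ p, H.Adj v p → H.Adj w p → H.Adj s p
  have claim : ∀ e d, L2 H v e → L2 H v d → H.Adj e d → 
      (∃ x, H.Adj v x ∧ H.Adj e x ∧ H.Adj s x) → (∃ y, H.Adj v y ∧ H.Adj d y ∧ H.Adj b' y) →
      Ev e := by
    rintro e d he hd hed ⟨x, hvx, hex, hsx⟩ ⟨y, hvy, hdy, hb'y⟩
    obtain ⟨z, hez, hsz, hyz⟩ := helly3 hN e s y ⟨x, hex, hsx⟩ ⟨d, hed, hdy.symm⟩
      ⟨b', hsb', hb'y.symm⟩
    have hzL : L2 H v z := by
      refine ⟨?_, ?_, y, hvy, hyz.symm⟩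
      · rintro rfl; exact he.2.1 hez.symm
      · exact hN.tf y v z hvy.symm hyz
    have hzB : ∀ p, H.Adj v p → H.Adj z p → H.Adj b' p := hb'max z hzL hsz
    obtain ⟨g, hgL, hzg, hgmax⟩ := fact2 hN hzL ⟨e, he, hez.symm⟩
    have hgC : mk g = C := by
      rw [← hsC]
      have h1 : K.Adj z g := ⟨hzL, hgL, hzg⟩
      have h2 : K.Adj s z := ⟨hsL, hzL, hsz⟩
      exact (SimpleGraph.ConnectedComponent.sound (h2.reachable.trans h1.reachable)).symm
    have hle := hsmax g hgL hgC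
    have hsub : P s ⊆ P g := by
      intro p hp
      simp only [P, Finset.mem_filter, Finset.mem_univ, true_and] at hp ⊢
      exact ⟨hp.1, hgmax s hsL hsz.symm p hp.1 hp.2⟩
    have heq : P s = P g := Finset.eq_of_subset_of_card_le hsub hle
    refine ⟨he, ?_, z, hzL, hez, hzB⟩
    intro p hvp hep
    have : p ∈ P g := by
      simp only [P, Finset.mem_filter, Finset.mem_univ, true_and]
      exact ⟨hvp, hgmax e he hez.symm p hvp hep⟩
    rw [← heq] at this
    simp only [P, Finset.mem_filter, Finset.mem_univ, true_and] at this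
    exact this.2
  have stepE : ∀ u u', Ev u → L2 H v u' → H.Adj u u' → Od u' := by
    rintro u u' ⟨hu, hu2, z, hz, huz, hz2⟩ hu' huu'
    obtain ⟨p, hvp, hu'p, hzp⟩ := fact1 hN hu' hz ⟨u, huu'.symm, huz.symm⟩
    exact ⟨hu', ⟨p, hvp, hu'p, hz2 p hvp hzp⟩, u, hu, huu'.symm, hu2⟩
  have stepO : ∀ u u', Od u → L2 H v u' → H.Adj u u' → Ev u' := by
    rintro u u' ⟨hu, hu2, w, hw, huw, hw2⟩ hu' huu'
    obtain ⟨p, hvp, hu'p, hwp⟩ := fact1 hN hu' hw ⟨u, huu'.symm, huw.symm⟩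
    exact claim u' u hu' hu huu'.symm ⟨p, hvp, hu'p, hw2 p hvp hwp⟩ hu2
  have base : Ev s := ⟨hsL, fun p _ h => h, b', hb'L, hsb', fun p _ h => h⟩
  have all : ∀ u, K.Reachable s u → Ev u ∨ Od u := by
    intro u hu
    rw [SimpleGraph.reachable_iff_reflTransGen] at hu
    induction hu with
    | refl => exact Or.inl base
    | tail _ hbc ih =>
      rcases ih with h | h
      · exact Or.inr (stepE _ _ h hbc.2.1 hbc.2.2)
      · exact Or.inl (stepO _ _ h hbc.2.1 hbc.2.2)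
  have hmb : mk b = C := hmab.symm
  show (∀ p, H.Adj v p → H.Adj a p → H.Adj (t (mk a)) p) ↔
    ¬ (∀ p, H.Adj v p → H.Adj b p → H.Adj (t (mk b)) p)
  rw [hmb]
  have excl : ∀ u, Od u → ¬ ∀ p, H.Adj v p → H.Adj u p → H.Adj s p := by
    rintro u ⟨_, ⟨p, hvp, hup, hbp⟩, _⟩ h
    exact hAB p (h p hvp hup) hbp
  rcases all a hreach with h | h
  · have hob := stepE a b h hb hab
    exact ⟨fun _ => excl b hob, fun _ => h.2.1⟩
  · have heb := stepO a b h hb hab
    exact ⟨fun h' => absurd h' (excl a h), fun h' => absurd heb.2.1 h'⟩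

open Classical in
/-- If independent sets have at most `m` vertices, then there are at most `2 m - 2` vertices at
distance two from `v`. -/
theorem card_L2 {H : SimpleGraph V} (hN : Nice H) (v : V) (m : ℕ)
    (hα : ∀ I : Finset V, (∀ a ∈ I, ∀ b ∈ I, ¬ H.Adj a b) → I.card ≤ m) :
    (univ.filter (fun a => L2 H v a)).card + 2 ≤ 2 * m := by
  obtain ⟨c, hc⟩ := exists_bip hN v
  set X := univ.filter (fun a => L2 H v a ∧ c a) with hX
  set Y := univ.filter (fun a => L2 H v a ∧ ¬ c a) with hY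
  have hXY : univ.filter (fun a => L2 H v a) = X ∪ Y := by
    ext a
    simp only [hX, hY, Finset.mem_filter, Finset.mem_univ, true_and, Finset.mem_union]
    tauto
  have hcard : (univ.filter (fun a => L2 H v a)).card ≤ X.card + Y.card := by
    rw [hXY]; exact Finset.card_union_le _ _
  have h1 : (insert v X).card ≤ m := by
    apply hα
    intro a ha b hb
    simp only [hX, Finset.mem_insert, Finset.mem_filter, Finset.mem_univ, true_and] at ha hb
    rcases ha with rfl | ha <;> rcases hb with rfl | hb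
    · exact H.loopless.irrefl _
    · exact hb.1.2.1
    · exact fun h => ha.1.2.1 h.symm
    · exact fun h => ((hc a b ha.1 hb.1 h).mp ha.2) hb.2
  have h2 : (insert v Y).card ≤ m := by
    apply hα
    intro a ha b hb
    simp only [hY, Finset.mem_insert, Finset.mem_filter, Finset.mem_univ, true_and] at ha hb
    rcases ha with rfl | ha <;> rcases hb with rfl | hb
    · exact H.loopless.irrefl _
    · exact hb.1.2.1
    · exact fun h => ha.1.2.1 h.symm
    · exact fun h => ha.2 ((hc a b ha.1 hb.1 h).mpr hb.2)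
  have hvX : v ∉ X := fun h => (Finset.mem_filter.mp h).2.1.1 rfl
  have hvY : v ∉ Y := fun h => (Finset.mem_filter.mp h).2.1.1 rfl
  rw [Finset.card_insert_of_notMem hvX] at h1
  rw [Finset.card_insert_of_notMem hvY] at h2
  omega

end Pool.Agent.Helper710_TMix
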