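import Pool.Agent.Helper710_TMix.MainT

/-!
The recursion in the first parameter.
-/

set_option autoImplicit false
open Finset

namespace Pool.Agent.Helper710_TMix

/-- `G` has an irredundant set of size `m`. -/
def Irr {V : Type*} (G : SimpleGraph V) (m : ℕ) : Prop :=
  ∃ S : Finset V, S.card = m ∧
    ∀ v ∈ S, ∃ w : V, (w = v ∨ G.Adj v w) ∧ ∀ u ∈ S, u ≠ v → ¬ (w = u ∨ G.Adj u w)

open Classical in
/-- A maximal clique of `G` gives the bound of Turan type. -/
lemma greedy {V : Type} [Fintype V] (G : SimpleGraph V) (n D : ℕ)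
    (hcl : ∀ s : Finset V, ¬ G.IsNClique n s)
    (hD : ∀ v, (univ.filter (fun u => u ≠ v ∧ ¬ G.Adj v u)).card ≤ D) (hn : 1 ≤ n) :
    Fintype.card V ≤ (n - 1) * (D + 1) := by
  -- cliques have fewer than `n` vertices
  have hlt : ∀ s : Finset V, G.IsClique (s : Set V) → s.card < n := by
    intro s hs
    by_contra hge
    push Not at hge
    obtain ⟨t, hts, htc⟩ := Finset.exists_subset_card_eq hge
    exact hcl t ⟨hs.subset (by exact_mod_cast hts), htc⟩
  obtain ⟨s, hs, hmax⟩ := Finset.exists_max_image
    (univ.filter (fun s : Finset V => G.IsClique (s : Set V))) (fun s => s.card) ⟨∅, by simp⟩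
  simp only [Finset.mem_filter, Finset.mem_univ, true_and] at hs hmax
  have hcover : (univ : Finset V) ⊆ s.biUnion (fun v => insert v (univ.filter (fun u => u ≠ v ∧ ¬ G.Adj v u))) := by
    intro x _
    rw [Finset.mem_biUnion]
    by_contra hx
    push Not at hx
    have hxs : x ∉ s := fun h => hx x h (Finset.mem_insert_self _ _)
    have hadj : ∀ v ∈ s, G.Adj v x := by
      intro v hv
      have := hx v hv
      simp only [Finset.mem_insert, Finset.mem_filter, Finset.mem_univ, true_and, not_or, not_and,
        not_not] at this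
      exact this.2 this.1
    have hc : G.IsClique ((insert x s : Finset V) : Set V) := by
      rw [Finset.coe_insert, SimpleGraph.isClique_insert_of_notMem (by exact_mod_cast hxs)]
      exact ⟨hs, fun b hb => (hadj b hb).symm⟩
    have := hmax _ hc
    rw [Finset.card_insert_of_notMem hxs] at this
    omega
  calc Fintype.card V = (univ : Finset V).card := rfl
    _ ≤ _ := Finset.card_le_card hcover
    _ ≤ ∑ v ∈ s, (insert v (univ.filter (fun u => u ≠ v ∧ ¬ G.Adj v u))).card := Finset.card_biUnion_le
    _ ≤ ∑ v ∈ s, (D + 1) := by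
        apply Finset.sum_le_sum
        intro v _
        exact (Finset.card_insert_le _ _).trans (Nat.add_le_add_right (hD v) 1)
    _ = s.card * (D + 1) := by rw [Finset.sum_const, smul_eq_mul]
    _ ≤ (n - 1) * (D + 1) := Nat.mul_le_mul_right _ (by have := hlt s hs; omega)

lemma clique_indep {V : Type} [Fintype V] (G : SimpleGraph V) (n : ℕ)
    (hcl : ∀ s : Finset V, ¬ G.IsNClique n s) (hn : 1 ≤ n) (I : Finset V)
    (hI : ∀ a ∈ I, ∀ b ∈ I, ¬ Gᶜ.Adj a b) : I.card ≤ n - 1 := by
  by_contra hge
  push Not at hge
  obtain ⟨t, hts, htc⟩ := Finset.exists_subset_card_eq (show n ≤ I.card by omega)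
  apply hcl t
  refine ⟨?_, htc⟩
  intro a ha b hb hab
  have := hI a (hts ha) b (hts hb)
  rw [SimpleGraph.compl_adj] at this
  by_contra h
  exact this ⟨hab, h⟩

open Classical in
theorem main_m (C K : ℝ) (hC0 : 0 < C) (hK0 : 0 ≤ K)
    (hK : ∀ m : ℕ, ∀ (V : Type) [Fintype V] (H : SimpleGraph V), TG H →
      (∀ I : Finset V, (∀ a ∈ I, ∀ b ∈ I, ¬ H.Adj a b) → I.card ≤ m) →
      (Fintype.card V : ℝ) ≤ K + psi C m) (n : ℕ) (hn : 1 ≤ n) (k : ℕ) :
    ∀ (V : Type) [Fintype V] (G : SimpleGraph V), ¬ Irr G (k + 3) →
      (∀ s : Finset V, ¬ G.IsNClique n s) →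
      (Fintype.card V : ℝ) + 1 ≤ n ^ k * (K + psi C ((n - 1 : ℕ) : ℝ) + 1) := by
  have hpsi : 0 ≤ psi C ((n - 1 : ℕ) : ℝ) := by unfold psi; positivity
  have hn1 : (1 : ℝ) ≤ n := by exact_mod_cast hn
  induction k with
  | zero =>
    intro V _ G hirr hcl
    have hT : TG Gᶜ := TG_compl G hirr
    have := hK (n - 1) V Gᶜ hT (fun I hI => clique_indep G n hcl hn I hI)
    simp only [pow_zero, one_mul]
    linarith
  | succ k ih =>
    intro V _ G hirr hcl
    set B : ℝ := n ^ k * (K + psi C ((n - 1 : ℕ) : ℝ) + 1) with hB
    have hB1 : 1 ≤ B := by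
      rw [hB]
      have h1 : (1 : ℝ) ≤ (n : ℝ) ^ k := one_le_pow₀ hn1
      nlinarith
    -- every vertex of the complement has degree at most `B - 1`
    have hdeg : ∀ v : V, (((univ.filter (fun u => u ≠ v ∧ ¬ G.Adj v u)).card : ℕ) : ℝ) + 1 ≤ B := by
      intro v
      set W := {u : V // u ≠ v ∧ ¬ G.Adj v u} with hW
      have h1 := ih W (G.comap Subtype.val) (by
        rintro ⟨S, hS, hS2⟩
        apply hirr
        have hvS : v ∉ S.map ⟨Subtype.val, Subtype.val_injective⟩ := by
          intro h
          rw [Finset.mem_map] at h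
          obtain ⟨u, _, hu⟩ := h
          exact u.2.1 hu
        refine ⟨insert v (S.map ⟨Subtype.val, Subtype.val_injective⟩), ?_, ?_⟩
        · rw [Finset.card_insert_of_notMem hvS, Finset.card_map, hS]
        · intro x hx
          rw [Finset.mem_insert] at hx
          rcases hx with rfl | hx
          · refine ⟨x, Or.inl rfl, ?_⟩
            intro u hu hux
            rw [Finset.mem_insert] at hu
            rcases hu with rfl | hu
            · exact absurd rfl hux
            · rw [Finset.mem_map] at hu
              obtain ⟨u', hu', rfl⟩ := hu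
              rintro (h | h)
              · exact hux h.symm
              · exact u'.2.2 h.symm
          · rw [Finset.mem_map] at hx
            obtain ⟨x', hx', rfl⟩ := hx
            obtain ⟨w, hw1, hw2⟩ := hS2 x' hx'
            refine ⟨w.1, ?_, ?_⟩
            · rcases hw1 with h | h
              · exact Or.inl (congrArg Subtype.val h)
              · exact Or.inr h
            · intro u hu hux
              rw [Finset.mem_insert] at hu
              rcases hu with rfl | hu
              · rintro (h | h)
                · exact w.2.1 h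
                · exact w.2.2 h
              · rw [Finset.mem_map] at hu
                obtain ⟨u', hu', rfl⟩ := hu
                have := hw2 u' hu' (fun h => hux (congrArg Subtype.val h))
                rintro (h | h)
                · exact this (Or.inl (Subtype.ext h))
                · exact this (Or.inr h)) (by
        intro s hs
        apply hcl (s.map ⟨Subtype.val, Subtype.val_injective⟩)
        refine ⟨?_, by rw [Finset.card_map]; exact hs.card_eq⟩
        intro a ha b hb hab
        rw [Finset.mem_coe, Finset.mem_map] at ha hb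
        obtain ⟨a', ha', rfl⟩ := ha
        obtain ⟨b', hb', rfl⟩ := hb
        exact hs.isClique ha' hb' (fun h => hab (congrArg Subtype.val h)))
      have h2 : Fintype.card W = (univ.filter (fun u => u ≠ v ∧ ¬ G.Adj v u)).card :=
        Fintype.card_subtype _
      rw [h2] at h1
      exact h1
    -- apply the greedy bound with the maximum degree
    by_cases hV : Nonempty V
    · obtain ⟨v, _, hv⟩ := Finset.exists_max_image (univ : Finset V)
        (fun v => (univ.filter (fun u => u ≠ v ∧ ¬ G.Adj v u)).card) Finset.univ_nonempty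
      have h3 := greedy G n _ hcl (fun w => hv w (Finset.mem_univ w)) hn
      have h4 := hdeg v
      set D := (univ.filter (fun u => u ≠ v ∧ ¬ G.Adj v u)).card with hD
      have h5 : (Fintype.card V : ℝ) ≤ (n - 1) * (D + 1) := by
        have : (Fintype.card V : ℝ) ≤ ((n - 1 : ℕ) : ℝ) * (D + 1) := by exact_mod_cast h3
        rwa [Nat.cast_sub hn, Nat.cast_one] at this
      rw [pow_succ]
      have h6 : (n : ℝ) ^ k * n * (K + psi C ((n - 1 : ℕ) : ℝ) + 1) = n * B := by rw [hB]; ring
      rw [h6]
      nlinarith
    · have h0 : Fintype.card V = 0 := by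
        rw [Fintype.card_eq_zero_iff]
        exact not_nonempty_iff.mp hV
      rw [h0, pow_succ]
      have h6 : (n : ℝ) ^ k * n * (K + psi C ((n - 1 : ℕ) : ℝ) + 1) = n * B := by rw [hB]; ring
      rw [h6, Nat.cast_zero]
      nlinarith

end Pool.Agent.Helper710_TMix
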