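import Pool.Agent.Helper710_TMix.MainBL
import Pool.Agent.Helper710_TMix.MainM

/-!
Minimal dominating sets: graphs with upper domination number less than `k + 3` and no
`n`-clique.
-/

set_option autoImplicit false
open Finset

namespace Pool.Agent.Helper710_TMix

/-- `D` is a dominating set of `G`. -/
def IsDom {V : Type*} (G : SimpleGraph V) (D : Finset V) : Prop :=
  ∀ v, v ∈ D ∨ ∃ u ∈ D, G.Adj u v

lemma isDom_iff {V : Type*} (G : SimpleGraph V) (S : Finset V) :
    IsDom G S ↔ ¬ ∃ z, ∀ a ∈ S, Gᶜ.Adj a z := by
  unfold IsDom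
  constructor
  · rintro h ⟨z, hz⟩
    rcases h z with h1 | ⟨u, hu, huz⟩
    · exact Gᶜ.loopless.irrefl z (hz z h1)
    · have := hz u hu
      rw [SimpleGraph.compl_adj] at this
      exact this.2 huz
  · intro h z
    by_contra hc
    push Not at hc
    apply h
    refine ⟨z, fun a ha => ?_⟩
    rw [SimpleGraph.compl_adj]
    exact ⟨fun e => hc.1 (e ▸ ha), hc.2 a ha⟩

open Classical in
lemma exists_min_dom {V : Type*} (G : SimpleGraph V) (S : Finset V) (hS : IsDom G S) :
    ∃ D ⊆ S, Minimal (IsDom G) D := by
  obtain ⟨D, hD, hmin⟩ := Finset.exists_min_image (S.powerset.filter (IsDom G)) (fun D => D.card)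
    ⟨S, by simp [hS]⟩
  simp only [Finset.mem_filter, Finset.mem_powerset] at hD hmin
  refine ⟨D, hD.1, hD.2, ?_⟩
  intro D' hD' hle
  have := hmin D' ⟨hle.trans hD.1, hD'⟩
  exact (Finset.eq_of_subset_of_card_le hle this).ge

open Classical in
/-- If every minimal dominating set of `G` has at most two vertices, then the complement is
triangle-free and has the Helly property. -/
lemma nice_of_dom {V : Type*} [Fintype V] (G : SimpleGraph V)
    (h : ¬ ∃ D : Finset V, Minimal (IsDom G) D ∧ 3 ≤ D.card) : Nice Gᶜ := by
  have helly : ∀ S : Finset V, S.Nonempty → (∀ a ∈ S, ∀ b ∈ S, ∃ z, Gᶜ.Adj a z ∧ Gᶜ.Adj b z) →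
      ∃ z, ∀ a ∈ S, Gᶜ.Adj a z := by
    intro S hne hp
    by_contra hc
    have hdom : IsDom G S := (isDom_iff G S).mpr hc
    obtain ⟨D, hDS, hD⟩ := exists_min_dom G S hdom
    apply h
    refine ⟨D, hD, ?_⟩
    by_contra hlt
    have hnb := (isDom_iff G D).mp hD.prop
    apply hnb
    obtain ⟨x, hx⟩ := hne
    have h012 : D.card = 0 ∨ D.card = 1 ∨ D.card = 2 := by omega
    rcases h012 with h0 | h1 | h2
    · rw [Finset.card_eq_zero] at h0
      exact ⟨x, by rw [h0]; simp⟩
    · obtain ⟨a, ha⟩ := Finset.card_eq_one.mp h1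
      have haS : a ∈ S := hDS (by rw [ha]; simp)
      obtain ⟨z, hz, _⟩ := hp a haS a haS
      exact ⟨z, by rw [ha]; intro b hb; rw [Finset.mem_singleton] at hb; rw [hb]; exact hz⟩
    · obtain ⟨a, b, _, hab⟩ := Finset.card_eq_two.mp h2
      have haS : a ∈ S := hDS (by rw [hab]; simp)
      have hbS : b ∈ S := hDS (by rw [hab]; simp)
      obtain ⟨z, hz1, hz2⟩ := hp a haS b hbS
      refine ⟨z, ?_⟩
      rw [hab]
      intro c hc
      simp only [Finset.mem_insert, Finset.mem_singleton] at hc
      rcases hc with rfl | rfl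
      · exact hz1
      · exact hz2
  refine ⟨?_, helly⟩
  intro a b c hab hac hbc
  obtain ⟨S, hS, hmax⟩ := Finset.exists_max_image
    (univ.filter (fun S : Finset V => {a, b, c} ⊆ S ∧ Gᶜ.IsClique (S : Set V))) (fun S => S.card)
    ⟨{a, b, c}, by
      simp only [Finset.mem_filter, Finset.mem_univ, true_and, subset_refl]
      intro x hx y hy hxy
      simp only [Finset.coe_insert, Finset.coe_singleton, Set.mem_insert_iff,
        Set.mem_singleton_iff] at hx hy
      rcases hx with rfl | rfl | rfl <;> rcases hy with rfl | rfl | rfl <;>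
        first
        | exact absurd rfl hxy
        | assumption
        | (apply SimpleGraph.Adj.symm; assumption)⟩
  simp only [Finset.mem_filter, Finset.mem_univ, true_and] at hS hmax
  have habc : a ≠ b ∧ a ≠ c ∧ b ≠ c := ⟨hab.ne, hac.ne, hbc.ne⟩
  have ha : a ∈ S := hS.1 (by simp)
  have hb : b ∈ S := hS.1 (by simp)
  have hc : c ∈ S := hS.1 (by simp)
  obtain ⟨z, hz⟩ := helly S ⟨a, ha⟩ (by
    intro x hx y hy
    -- a third element
    have : ∃ w ∈ S, w ≠ x ∧ w ≠ y := by
      by_cases h1 : a ≠ x ∧ a ≠ y
      · exact ⟨a, ha, h1⟩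
      by_cases h2 : b ≠ x ∧ b ≠ y
      · exact ⟨b, hb, h2⟩
      refine ⟨c, hc, ?_⟩
      obtain ⟨n1, n2, n3⟩ := habc
      constructor
      · rintro rfl
        have e1 : a = y := by
          by_contra hne
          exact h1 ⟨n2, hne⟩
        have e2 : b = y := by
          by_contra hne
          exact h2 ⟨n3, hne⟩
        exact n1 (e1.trans e2.symm)
      · rintro rfl
        have e1 : a = x := by
          by_contra hne
          exact h1 ⟨hne, n2⟩
        have e2 : b = x := by
          by_contra hne
          exact h2 ⟨hne, n3⟩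
        exact n1 (e1.trans e2.symm)
    obtain ⟨w, hw, hwx, hwy⟩ := this
    exact ⟨w, hS.2 hx hw hwx.symm, hS.2 hy hw hwy.symm⟩)
  have hzS : z ∉ S := fun hzS => Gᶜ.loopless.irrefl z (hz z hzS)
  have hins : Gᶜ.IsClique ((insert z S : Finset V) : Set V) := by
    rw [Finset.coe_insert, SimpleGraph.isClique_insert_of_notMem (by exact_mod_cast hzS)]
    exact ⟨hS.2, fun x hx => (hz x hx).symm⟩
  have := hmax (insert z S) ⟨hS.1.trans (Finset.subset_insert _ _), hins⟩
  rw [Finset.card_insert_of_notMem hzS] at this
  omega

open Classical in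
theorem main_v (C K : ℝ) (hC0 : 0 < C) (hK0 : 0 ≤ K)
    (hK : ∀ m : ℕ, ∀ (V : Type) [Fintype V] (H : SimpleGraph V), BL H →
      (∀ I : Finset V, (∀ a ∈ I, ∀ b ∈ I, ¬ H.Adj a b) → I.card ≤ m) →
      (Fintype.card V : ℝ) ≤ K + psi C m) (n : ℕ) (hn : 1 ≤ n) (k : ℕ) :
    ∀ (V : Type) [Fintype V] (G : SimpleGraph V),
      (¬ ∃ D : Finset V, Minimal (IsDom G) D ∧ k + 3 ≤ D.card) →
      (∀ s : Finset V, ¬ G.IsNClique n s) →
      (Fintype.card V : ℝ) + 1 ≤ n ^ k * (K + psi C ((n - 1 : ℕ) : ℝ) + 1) := by
  have hpsi : 0 ≤ psi C ((n - 1 : ℕ) : ℝ) := by unfold psi; positivity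
  have hn1 : (1 : ℝ) ≤ n := by exact_mod_cast hn
  induction k with
  | zero =>
    intro V _ G hdom hcl
    have hT : BL Gᶜ := (nice_of_dom G hdom).bl
    have := hK (n - 1) V Gᶜ hT (fun I hI => clique_indep G n hcl hn I hI)
    simp only [pow_zero, one_mul]
    linarith
  | succ k ih =>
    intro V _ G hdom hcl
    set B : ℝ := n ^ k * (K + psi C ((n - 1 : ℕ) : ℝ) + 1) with hB
    have hB1 : 1 ≤ B := by
      rw [hB]
      have h1 : (1 : ℝ) ≤ (n : ℝ) ^ k := one_le_pow₀ hn1
      nlinarith
    -- every vertex of the complement has degree at most `B - 1`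
    have hdeg : ∀ v : V, (((univ.filter (fun u => u ≠ v ∧ ¬ G.Adj v u)).card : ℕ) : ℝ) + 1 ≤ B := by
      intro v
      set W := {u : V // u ≠ v ∧ ¬ G.Adj v u} with hW
      have h1 := ih W (G.comap Subtype.val) (by
        rintro ⟨D, hD, hDk⟩
        apply hdom
        have hvS : v ∉ D.map ⟨Subtype.val, Subtype.val_injective⟩ := by
          intro h
          rw [Finset.mem_map] at h
          obtain ⟨u, _, hu⟩ := h
          exact u.2.1 hu
        refine ⟨insert v (D.map ⟨Subtype.val, Subtype.val_injective⟩), ⟨?_, ?_⟩, ?_⟩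
        · intro z
          by_cases hzv : z = v
          · left; rw [hzv]; exact Finset.mem_insert_self _ _
          by_cases hzv2 : G.Adj v z
          · right; exact ⟨v, Finset.mem_insert_self _ _, hzv2⟩
          rcases hD.prop ⟨z, hzv, hzv2⟩ with h | ⟨u, hu, huz⟩
          · left
            apply Finset.mem_insert_of_mem
            rw [Finset.mem_map]
            exact ⟨⟨z, hzv, hzv2⟩, h, rfl⟩
          · right
            refine ⟨u.1, Finset.mem_insert_of_mem ?_, huz⟩
            rw [Finset.mem_map]
            exact ⟨u, hu, rfl⟩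
        · intro D1 hD1 hle
          have hvD1 : v ∈ D1 := by
            rcases hD1 v with h | ⟨u, hu, huv⟩
            · exact h
            · have := hle hu
              rw [Finset.mem_insert] at this
              rcases this with rfl | h
              · exact hu
              · rw [Finset.mem_map] at h
                obtain ⟨u', _, rfl⟩ := h
                exact absurd huv.symm u'.2.2
          have hsub : IsDom (G.comap Subtype.val) (D.filter (fun w : W => w.1 ∈ D1)) := by
            intro z
            rcases hD1 z.1 with h | ⟨u, hu, huz⟩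
            · left
              rw [Finset.mem_filter]
              refine ⟨?_, h⟩
              have := hle h
              rw [Finset.mem_insert] at this
              rcases this with h' | h'
              · exact absurd h' z.2.1
              · rw [Finset.mem_map] at h'
                obtain ⟨z', hz', he⟩ := h'
                rwa [Subtype.ext he] at hz'
            · right
              have := hle hu
              rw [Finset.mem_insert] at this
              rcases this with rfl | h'
              · exact absurd huz z.2.2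
              · rw [Finset.mem_map] at h'
                obtain ⟨u', hu', rfl⟩ := h'
                exact ⟨u', Finset.mem_filter.mpr ⟨hu', hu⟩, huz⟩
          have hle2 := hD.2 hsub (Finset.filter_subset _ _)
          intro x hx
          rw [Finset.mem_insert] at hx
          rcases hx with rfl | hx
          · exact hvD1
          · rw [Finset.mem_map] at hx
            obtain ⟨x', hx', rfl⟩ := hx
            exact (Finset.mem_filter.mp (hle2 hx')).2
        · rw [Finset.card_insert_of_notMem hvS, Finset.card_map]
          omega) (by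
        intro s hs
        apply hcl (s.map ⟨Subtype.val, Subtype.val_injective⟩)
        refine ⟨?_, by rw [Finset.card_map]; exact hs.card_eq⟩
        intro a ha b hb hab
        rw [Finset.mem_coe, Finset.mem_map] at ha hb
        obtain ⟨a', ha', rfl⟩ := ha
        obtain ⟨b', hb', rfl⟩ := hb
        exact hs.isClique ha' hb' (fun h => hab (congrArg Subtype.val h)))
      have h2 : Fintype.card W = (univ.filter (fun u => u ≠ v ∧ ¬ G.Adj v u)).card :=
        Fintype.card_subtype _
      rw [h2] at h1
      exact h1
    -- apply the greedy bound with the maximum degree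
    by_cases hV : Nonempty V
    · obtain ⟨v, _, hv⟩ := Finset.exists_max_image (univ : Finset V)
        (fun v => (univ.filter (fun u => u ≠ v ∧ ¬ G.Adj v u)).card) Finset.univ_nonempty
      have h3 := greedy G n _ hcl (fun w => hv w (Finset.mem_univ w)) hn
      have h4 := hdeg v
      set D := (univ.filter (fun u => u ≠ v ∧ ¬ G.Adj v u)).card with hD
      have h5 : (Fintype.card V : ℝ) ≤ (n - 1) * (D + 1) := by
        have : (Fintype.card V : ℝ) ≤ ((n - 1 : ℕ) : ℝ) * (D + 1) := by exact_mod_cast h3
        rwa [Nat.cast_sub hn, Nat.cast_one] at this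
      rw [pow_succ]
      have h6 : (n : ℝ) ^ k * n * (K + psi C ((n - 1 : ℕ) : ℝ) + 1) = n * B := by rw [hB]; ring
      rw [h6]
      nlinarith
    · have h0 : Fintype.card V = 0 := by
        rw [Fintype.card_eq_zero_iff]
        exact not_nonempty_iff.mp hV
      rw [h0, pow_succ]
      have h6 : (n : ℝ) ^ k * n * (K + psi C ((n - 1 : ℕ) : ℝ) + 1) = n * B := by rw [hB]; ring
      rw [h6, Nat.cast_zero]
      nlinarith

end Pool.Agent.Helper710_TMix
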