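import Mathlib

/-!
Triangle-free graphs with `q ^ 3` vertices and no independent set of size `2 q ^ 2`.
-/

set_option autoImplicit false
open Finset

namespace Pool.Agent.Helper710_TMix

variable {F : Type} [Field F] [Fintype F] [DecidableEq F]

/-- The line through `p` in direction `(1, t, t ^ 2)`. -/
def line (t : F) (p : F × F × F) : F × F × F := (t, p.2.1 - t * p.1, p.2.2 - t ^ 2 * p.1)

/-- Points are adjacent when they lie on a common line and have different colours there. -/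
def LG (c : F × (F × F × F) → Bool) : SimpleGraph (F × F × F) where
  Adj p r := ∃ t, line t p = line t r ∧ c (t, p) ≠ c (t, r)
  symm := ⟨fun _ _ ⟨t, h1, h2⟩ => ⟨t, h1.symm, h2.symm⟩⟩
  loopless := ⟨fun _ ⟨_, _, h2⟩ => h2 rfl⟩

omit [Fintype F] [DecidableEq F] in
lemma line_inj {t : F} {p r : F × F × F} (h : line t p = line t r) (hx : p.1 = r.1) : p = r := by
  obtain ⟨x1, y1, z1⟩ := p
  obtain ⟨x2, y2, z2⟩ := r
  simp only at hx
  subst hx
  simp only [line, Prod.mk.injEq, true_and] at h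
  obtain ⟨h1, h2⟩ := h
  have e1 : y1 = y2 := by linear_combination h1
  have e2 : z1 = z2 := by linear_combination h2
  rw [e1, e2]

omit [Fintype F] [DecidableEq F] in
lemma LG_tf (c : F × (F × F × F) → Bool) :
    ∀ p r s, (LG c).Adj p r → (LG c).Adj p s → ¬ (LG c).Adj r s := by
  rintro p r s ⟨t3, h3, n3⟩ ⟨t2, h2, n2⟩ ⟨t1, h1, n1⟩
  have ha : r.1 - p.1 ≠ 0 := by
    intro e
    have := line_inj h3 (by linear_combination -e)
    rw [this] at n3
    exact n3 rfl
  have hb : s.1 - r.1 ≠ 0 := by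
    intro e
    have := line_inj h1 (by linear_combination -e)
    rw [this] at n1
    exact n1 rfl
  have hc : p.1 - s.1 ≠ 0 := by
    intro e
    have := line_inj h2 (by linear_combination e)
    rw [this] at n2
    exact n2 rfl
  have g1 := h1
  have g2 := h2
  have g3 := h3
  simp only [line, Prod.mk.injEq, true_and] at g1 g2 g3
  have ey : (r.1 - p.1) * t3 + (s.1 - r.1) * t1 + (p.1 - s.1) * t2 = 0 := by
    linear_combination g3.1 + g1.1 - g2.1
  have ez : (r.1 - p.1) * t3 ^ 2 + (s.1 - r.1) * t1 ^ 2 + (p.1 - s.1) * t2 ^ 2 = 0 := by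
    linear_combination g3.2 + g1.2 - g2.2
  have e3 : (t3 - t1) * (t3 - t2) = 0 := by
    have : (r.1 - p.1) * ((t3 - t1) * (t3 - t2)) = 0 := by
      linear_combination ez - (t1 + t2) * ey
    exact (mul_eq_zero.mp this).resolve_left ha
  have e1 : (t1 - t2) * (t1 - t3) = 0 := by
    have : (s.1 - r.1) * ((t1 - t2) * (t1 - t3)) = 0 := by
      linear_combination ez - (t2 + t3) * ey
    exact (mul_eq_zero.mp this).resolve_left hb
  have e2 : (t2 - t1) * (t2 - t3) = 0 := by
    have : (p.1 - s.1) * ((t2 - t1) * (t2 - t3)) = 0 := by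
      linear_combination ez - (t1 + t3) * ey
    exact (mul_eq_zero.mp this).resolve_left hc
  have heq : t1 = t2 ∧ t2 = t3 := by
    rcases mul_eq_zero.mp e3 with h | h
    · have h31 : t3 = t1 := sub_eq_zero.mp h
      rcases mul_eq_zero.mp e2 with h' | h'
      · have h21 : t2 = t1 := sub_eq_zero.mp h'
        exact ⟨h21.symm, h21.trans h31.symm⟩
      · have h23 : t2 = t3 := sub_eq_zero.mp h'
        exact ⟨(h23.trans h31).symm, h23⟩
    · have h32 : t3 = t2 := sub_eq_zero.mp h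
      rcases mul_eq_zero.mp e1 with h' | h'
      · exact ⟨sub_eq_zero.mp h', h32.symm⟩
      · have h13 : t1 = t3 := sub_eq_zero.mp h'
        exact ⟨h13.trans h32, h32.symm⟩
  obtain ⟨rfl, rfl⟩ := heq
  revert n1 n2 n3
  cases c (t1, p) <;> cases c (t1, r) <;> cases c (t1, s) <;> simp

omit [Field F] in
open Classical in
lemma card_sub (S : Finset (F × F × F)) :
    Fintype.card {x : F × (F × F × F) // x.2 ∉ S}
      = Fintype.card F * (Fintype.card F ^ 3 - S.card) := by
  rw [Fintype.card_subtype]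
  have h1 : (univ.filter (fun x : F × (F × F × F) => x.2 ∉ S)) = univ ×ˢ Sᶜ := by
    ext x
    simp
  rw [h1, Finset.card_product, Finset.card_compl, Finset.card_univ]
  simp only [Fintype.card_prod]
  ring_nf

open Classical in
lemma bad_card (S : Finset (F × F × F)) :
    (univ.filter (fun c : F × (F × F × F) → Bool => ∀ a ∈ S, ∀ b ∈ S, ¬ (LG c).Adj a b)).card
      ≤ 2 ^ (Fintype.card F ^ 3 + Fintype.card F * (Fintype.card F ^ 3 - S.card)) := by
  let Φ : ((F × F × F) → Bool) × ({x : F × (F × F × F) // x.2 ∉ S} → Bool) →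
      (F × (F × F × F) → Bool) :=
    fun gh x => if h : x.2 ∉ S then gh.2 ⟨x, h⟩ else gh.1 (line x.1 x.2)
  have hsub : (univ.filter (fun c : F × (F × F × F) → Bool =>
      ∀ a ∈ S, ∀ b ∈ S, ¬ (LG c).Adj a b)) ⊆ univ.image Φ := by
    intro c hc
    rw [Finset.mem_filter] at hc
    rw [Finset.mem_image]
    refine ⟨(fun l => if h : ∃ p ∈ S, line l.1 p = l then c (l.1, h.choose) else false,
      fun x => c x.1), Finset.mem_univ _, ?_⟩
    funext x
    obtain ⟨t, p⟩ := x
    by_cases hp : p ∈ S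
    · have hex : ∃ r ∈ S, line (line t p).1 r = line t p := ⟨p, hp, rfl⟩
      have h1 := hex.choose_spec
      have h2 : Φ (fun l => if h : ∃ p ∈ S, line l.1 p = l then c (l.1, h.choose) else false,
          fun x => c x.1) (t, p) = c ((line t p).1, hex.choose) := by
        simp only [Φ]
        rw [dif_neg (by simpa using hp), dif_pos hex]
      rw [h2]
      by_contra hne
      exact hc.2 p hp _ h1.1 ⟨t, h1.2.symm, fun e => hne e.symm⟩
    · simp only [Φ]
      rw [dif_pos (by simpa using hp)]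
  refine (Finset.card_le_card hsub).trans (Finset.card_image_le.trans ?_)
  rw [Finset.card_univ, Fintype.card_prod, Fintype.card_fun, Fintype.card_fun, card_sub,
    Fintype.card_bool, ← pow_add]
  apply Nat.pow_le_pow_right (by norm_num)
  simp only [Fintype.card_prod]
  apply le_of_eq
  ring_nf

open Classical in
lemma exists_LG (s : ℕ)
    (hcount : (Fintype.card F ^ 3).choose s *
      2 ^ (Fintype.card F ^ 3 + Fintype.card F * (Fintype.card F ^ 3 - s))
        < 2 ^ (Fintype.card F * Fintype.card F ^ 3)) :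
    ∃ c : F × (F × F × F) → Bool, ∀ S : Finset (F × F × F), S.card = s →
      ¬ (∀ a ∈ S, ∀ b ∈ S, ¬ (LG c).Adj a b) := by
  by_contra hcon
  push Not at hcon
  have hsub : (univ : Finset (F × (F × F × F) → Bool)) ⊆
      (Finset.powersetCard s (univ : Finset (F × F × F))).biUnion (fun S =>
        univ.filter (fun c : F × (F × F × F) → Bool => ∀ a ∈ S, ∀ b ∈ S, ¬ (LG c).Adj a b)) := by
    intro c _
    obtain ⟨S, hS, h⟩ := hcon c
    rw [Finset.mem_biUnion]
    refine ⟨S, ?_, ?_⟩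
    · rw [Finset.mem_powersetCard]; exact ⟨Finset.subset_univ _, hS⟩
    · rw [Finset.mem_filter]; exact ⟨Finset.mem_univ _, h⟩
  have h1 := Finset.card_le_card hsub
  have h2 : (univ : Finset (F × (F × F × F) → Bool)).card
      = 2 ^ (Fintype.card F * Fintype.card F ^ 3) := by
    rw [Finset.card_univ, Fintype.card_fun, Fintype.card_bool]
    simp only [Fintype.card_prod]
    ring_nf
  rw [h2] at h1
  have h3 : ((Finset.powersetCard s (univ : Finset (F × F × F))).biUnion (fun S =>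
        univ.filter (fun c : F × (F × F × F) → Bool =>
          ∀ a ∈ S, ∀ b ∈ S, ¬ (LG c).Adj a b))).card
      ≤ (Fintype.card F ^ 3).choose s *
      2 ^ (Fintype.card F ^ 3 + Fintype.card F * (Fintype.card F ^ 3 - s)) := by
    refine Finset.card_biUnion_le.trans ?_
    have h4 : ∀ S ∈ Finset.powersetCard s (univ : Finset (F × F × F)),
        (univ.filter (fun c : F × (F × F × F) → Bool =>
          ∀ a ∈ S, ∀ b ∈ S, ¬ (LG c).Adj a b)).card ≤
        2 ^ (Fintype.card F ^ 3 + Fintype.card F * (Fintype.card F ^ 3 - s)) := by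
      intro S hS
      rw [Finset.mem_powersetCard] at hS
      have := bad_card S
      rwa [hS.2] at this
    refine (Finset.sum_le_sum h4).trans ?_
    rw [Finset.sum_const, Finset.card_powersetCard, smul_eq_mul, Finset.card_univ]
    apply le_of_eq
    congr 2
    simp only [Fintype.card_prod]
    ring
  omega

lemma pow6_lt (q : ℕ) (hq : 30 ≤ q) : q ^ 6 < 2 ^ q := by
  induction q, hq using Nat.le_induction with
  | base => norm_num
  | succ q hq ih =>
    have h1 : (q + 1) ^ 6 ≤ 2 * q ^ 6 := by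
      have h2 : (30 : ℕ) ≤ q := hq
      have h3 : 30 ^ 6 * (q + 1) ^ 6 ≤ 31 ^ 6 * q ^ 6 := by
        rw [← mul_pow, ← mul_pow]
        apply Nat.pow_le_pow_left
        omega
      have h4 : 31 ^ 6 ≤ 2 * 30 ^ 6 := by norm_num
      have h5 : 30 ^ 6 * (q + 1) ^ 6 ≤ 30 ^ 6 * (2 * q ^ 6) := by
        calc 30 ^ 6 * (q + 1) ^ 6 ≤ 31 ^ 6 * q ^ 6 := h3
          _ ≤ 2 * 30 ^ 6 * q ^ 6 := Nat.mul_le_mul_right _ h4
          _ = 30 ^ 6 * (2 * q ^ 6) := by ring
      exact Nat.le_of_mul_le_mul_left h5 (by norm_num)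
    calc (q + 1) ^ 6 ≤ 2 * q ^ 6 := h1
      _ < 2 * 2 ^ q := by omega
      _ = 2 ^ (q + 1) := by ring

/-- For a prime `q ≥ 30` there is a triangle-free graph with `q ^ 3` vertices in which every
independent set has fewer than `2 q ^ 2` vertices. -/
theorem exists_tf (q : ℕ) (hp : q.Prime) (hq : 30 ≤ q) :
    ∃ H : SimpleGraph (Fin (q ^ 3)),
      (∀ a b c, H.Adj a b → H.Adj a c → ¬ H.Adj b c) ∧
      ∀ S : Finset (Fin (q ^ 3)), (∀ a ∈ S, ∀ b ∈ S, ¬ H.Adj a b) → S.card < 2 * q ^ 2 := by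
  haveI : Fact q.Prime := ⟨hp⟩
  have hcard : Fintype.card (ZMod q) = q := ZMod.card q
  have h2q : 2 * q ^ 2 ≤ q ^ 3 := by
    calc 2 * q ^ 2 ≤ q * q ^ 2 := Nat.mul_le_mul_right _ (by omega)
      _ = q ^ 3 := by ring
  have hcount : (Fintype.card (ZMod q) ^ 3).choose (2 * q ^ 2) *
      2 ^ (Fintype.card (ZMod q) ^ 3 + Fintype.card (ZMod q) * (Fintype.card (ZMod q) ^ 3 - 2 * q ^ 2))
        < 2 ^ (Fintype.card (ZMod q) * Fintype.card (ZMod q) ^ 3) := by
    rw [hcard]
    have h1 : (q ^ 3).choose (2 * q ^ 2) ≤ (q ^ 3) ^ (2 * q ^ 2) := Nat.choose_le_pow _ _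
    have h2 : (q ^ 3) ^ (2 * q ^ 2) < 2 ^ (q ^ 3) := by
      have h3 : (q ^ 3) ^ (2 * q ^ 2) = (q ^ 6) ^ (q ^ 2) := by
        rw [← pow_mul, ← pow_mul]; congr 1; ring
      have h4 : 2 ^ (q ^ 3) = (2 ^ q) ^ (q ^ 2) := by
        rw [← pow_mul]; congr 1; ring
      rw [h3, h4]
      exact Nat.pow_lt_pow_left (pow6_lt q hq) (by positivity)
    have h5 : q ^ 3 + (q ^ 3 + q * (q ^ 3 - 2 * q ^ 2)) = q * q ^ 3 := by
      obtain ⟨d, hd⟩ := Nat.exists_eq_add_of_le h2q
      have h6 : q ^ 3 - 2 * q ^ 2 = d := by omega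
      rw [h6]
      have h7 : q * q ^ 3 = q * (2 * q ^ 2) + q * d := by rw [hd]; ring
      rw [h7]
      ring
    calc (q ^ 3).choose (2 * q ^ 2) * 2 ^ (q ^ 3 + q * (q ^ 3 - 2 * q ^ 2))
        < 2 ^ (q ^ 3) * 2 ^ (q ^ 3 + q * (q ^ 3 - 2 * q ^ 2)) :=
          Nat.mul_lt_mul_of_pos_right (lt_of_le_of_lt h1 h2) (by positivity)
      _ = 2 ^ (q * q ^ 3) := by rw [← pow_add, h5]
  obtain ⟨c, hc⟩ := exists_LG (F := ZMod q) (2 * q ^ 2) hcount
  have hcP : Fintype.card (ZMod q × ZMod q × ZMod q) = q ^ 3 := by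
    simp only [Fintype.card_prod, hcard]; ring
  let e : Fin (q ^ 3) ≃ (ZMod q × ZMod q × ZMod q) := (Fintype.equivFinOfCardEq hcP).symm
  refine ⟨(LG c).comap e, ?_, ?_⟩
  · intro a b d hab had hbd
    exact LG_tf c _ _ _ hab had hbd
  · intro S hS
    by_contra hge
    push Not at hge
    obtain ⟨T, hTS, hT⟩ := Finset.exists_subset_card_eq hge
    apply hc (T.map e.toEmbedding) (by rw [Finset.card_map, hT])
    intro a ha b hb
    rw [Finset.mem_map] at ha hb
    obtain ⟨a', ha', rfl⟩ := ha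
    obtain ⟨b', hb', rfl⟩ := hb
    exact hS a' (hTS ha') b' (hTS hb')

end Pool.Agent.Helper710_TMix
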