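import Pool.Agent.Helper710_TMix.Dom
import Pool.Agent.Helper710_TMix.Lower

/-!
Definitions and the two bounds used in the comparison of `v(3,n)` and `r(3,n)`.
-/

set_option autoImplicit false
open Finset Filter Topology

namespace Pool.Agent.Helper710_TMix

/-- The mixed domination Ramsey number `v(m,n)`: the least `N` such that every graph `G` on `N`
vertices has a minimal dominating set with at least `m` vertices or a clique with `n`
vertices. -/
noncomputable def vNum (m n : ℕ) : ℕ :=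
  sInf {N : ℕ | ∀ G : SimpleGraph (Fin N),
    (∃ D : Finset (Fin N), Minimal (IsDom G) D ∧ m ≤ D.card) ∨
    ∃ s : Finset (Fin N), G.IsNClique n s}

/-- The Ramsey number `r(m,n)`: the least `N` such that every graph `G` on `N` vertices has an
independent set with `m` vertices or a clique with `n` vertices. -/
noncomputable def rNum (m n : ℕ) : ℕ :=
  sInf {N : ℕ | ∀ G : SimpleGraph (Fin N),
    (∃ s : Finset (Fin N), Gᶜ.IsNClique m s) ∨
    ∃ s : Finset (Fin N), G.IsNClique n s}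

lemma psi_le' (C : ℝ) (hC : 0 < C) (n : ℕ) (hn : 2 ≤ n) :
    psi C ((n - 1 : ℕ) : ℝ) ≤ C * ((n : ℝ) * Real.sqrt n / Real.sqrt (Real.log n)) := by
  unfold psi
  have hn' : (2 : ℝ) ≤ n := by exact_mod_cast hn
  have h0 : ((n - 1 : ℕ) : ℝ) = n - 1 := by rw [Nat.cast_sub (by omega), Nat.cast_one]
  rw [h0]
  apply mul_le_mul_of_nonneg_left _ hC.le
  have hlog : 0 < Real.log n := Real.log_pos (by linarith)
  apply div_le_div₀
  · positivity
  · apply mul_le_mul (by linarith) (Real.sqrt_le_sqrt (by linarith)) (Real.sqrt_nonneg _) (by linarith)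
  · exact Real.sqrt_pos.mpr hlog
  · exact Real.sqrt_le_sqrt (Real.log_le_log (by linarith) (by linarith))

/-- `v(m,n) ≤ (√(8/3) + o(1)) n^(m - 3/2) / √(log n)`. -/
theorem vNum_le (m : ℕ) (hm : 3 ≤ m) (ε : ℝ) (hε : 0 < ε) : ∀ᶠ n : ℕ in atTop,
    (vNum m n : ℝ)
      ≤ (Real.sqrt (8 / 3) + ε) * ((n : ℝ) ^ ((m : ℝ) - 3 / 2) / Real.sqrt (Real.log n)) := by
  obtain ⟨k, rfl⟩ := Nat.exists_eq_add_of_le' hm
  set C : ℝ := Real.sqrt (8 / 3) + ε / 2 with hC
  have hs0 : 0 ≤ Real.sqrt (8 / 3) := Real.sqrt_nonneg _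
  have hC0 : 0 < C := by positivity
  have hC2 : 8 / 3 < C ^ 2 := by
    have h1 : Real.sqrt (8 / 3) ^ 2 = 8 / 3 := Real.sq_sqrt (by norm_num)
    nlinarith
  obtain ⟨K, hK0, hK⟩ := main_BL C hC0 hC2
  -- eventually `K + 1` is at most `(ε/2) n^(3/2) / √(log n)`
  have hev : ∀ᶠ n : ℕ in atTop, (K + 1) ≤ ε / 2 * ((n : ℝ) * Real.sqrt n / Real.sqrt (Real.log n)) := by
    have h1 : ∀ᶠ n : ℕ in atTop, (K + 1) / (ε / 2) ≤ (n : ℝ) :=
      tendsto_natCast_atTop_atTop.eventually_ge_atTop _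
    filter_upwards [h1, eventually_ge_atTop 2] with n hn hn2
    have hn2' : (2 : ℝ) ≤ n := by exact_mod_cast hn2
    have hlog : 0 < Real.log n := Real.log_pos (by linarith)
    have h2 : Real.log n ≤ n := (Real.log_le_sub_one_of_pos (by linarith)).trans (by linarith)
    have h3 : (1 : ℝ) ≤ Real.sqrt n / Real.sqrt (Real.log n) := by
      rw [one_le_div (Real.sqrt_pos.mpr hlog)]
      exact Real.sqrt_le_sqrt h2
    have h4 : (n : ℝ) ≤ (n : ℝ) * Real.sqrt n / Real.sqrt (Real.log n) := by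
      rw [mul_div_assoc]
      nlinarith
    rw [div_le_iff₀ (by positivity)] at hn
    nlinarith
  filter_upwards [hev, eventually_ge_atTop 2] with n hn hn2
  have hn2' : (2 : ℝ) ≤ n := by exact_mod_cast hn2
  have hmain := main_v C K hC0 hK0 hK n (by omega) k
  set B : ℝ := (n : ℝ) ^ k * (K + psi C ((n - 1 : ℕ) : ℝ) + 1) with hB
  have hpsi0 : 0 ≤ psi C ((n - 1 : ℕ) : ℝ) := by unfold psi; positivity
  have hB0 : 0 ≤ B := by positivity
  have hmem : ⌊B⌋₊ ∈ {N : ℕ | ∀ G : SimpleGraph (Fin N),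
        (∃ D : Finset (Fin N), Minimal (IsDom G) D ∧ k + 3 ≤ D.card) ∨
        ∃ s : Finset (Fin N), G.IsNClique n s} := by
    intro G
    by_contra hcon
    rw [not_or] at hcon
    obtain ⟨h1, h2⟩ := hcon
    have h3 := hmain (Fin ⌊B⌋₊) G h1 (by
      intro s hs
      exact h2 ⟨s, hs⟩)
    rw [Fintype.card_fin] at h3
    have h4 := Nat.lt_floor_add_one B
    linarith
  have hle : vNum (k + 3) n ≤ ⌊B⌋₊ := Nat.sInf_le hmem
  have hle' : (vNum (k + 3) n : ℝ) ≤ B := (Nat.cast_le.mpr hle).trans (Nat.floor_le hB0)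
  refine hle'.trans ?_
  have hpow : (n : ℝ) ^ (((k + 3 : ℕ) : ℝ) - 3 / 2) = (n : ℝ) ^ k * ((n : ℝ) * Real.sqrt n) := by
    have h1 : ((k + 3 : ℕ) : ℝ) - 3 / 2 = (k : ℝ) + (1 + 1 / 2) := by push_cast; ring
    rw [h1, Real.rpow_add (by linarith), Real.rpow_add (by linarith), Real.rpow_one,
      Real.rpow_natCast, Real.sqrt_eq_rpow]
  rw [hpow, hB, mul_div_assoc]
  have h5 := psi_le' C hC0 n hn2
  have h6 : K + psi C ((n - 1 : ℕ) : ℝ) + 1 ≤
      (Real.sqrt (8 / 3) + ε) * ((n : ℝ) * Real.sqrt n / Real.sqrt (Real.log n)) := by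
    have h7 : (Real.sqrt (8 / 3) + ε) * ((n : ℝ) * Real.sqrt n / Real.sqrt (Real.log n))
        = C * ((n : ℝ) * Real.sqrt n / Real.sqrt (Real.log n))
          + ε / 2 * ((n : ℝ) * Real.sqrt n / Real.sqrt (Real.log n)) := by rw [hC]; ring
    linarith
  have h8 : (0 : ℝ) ≤ (n : ℝ) ^ k := by positivity
  calc (n : ℝ) ^ k * (K + psi C ((n - 1 : ℕ) : ℝ) + 1)
      ≤ (n : ℝ) ^ k * ((Real.sqrt (8 / 3) + ε) * ((n : ℝ) * Real.sqrt n / Real.sqrt (Real.log n))) :=
        mul_le_mul_of_nonneg_left h6 h8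
    _ = _ := by ring

open Classical in
lemma ramsey3 (n : ℕ) (hn : 1 ≤ n) :
    {N : ℕ | ∀ G : SimpleGraph (Fin N),
      (∃ s : Finset (Fin N), Gᶜ.IsNClique 3 s) ∨
      ∃ s : Finset (Fin N), G.IsNClique n s}.Nonempty := by
  refine ⟨n * (2 * (1 + n)) + 1, ?_⟩
  intro G
  by_contra hcon
  push Not at hcon
  obtain ⟨h1, h2⟩ := hcon
  have htf : ∀ a b c, Gᶜ.Adj a b → Gᶜ.Adj a c → ¬ Gᶜ.Adj b c := by
    intro a b c hab hac hbc
    exact h1 {a, b, c} (SimpleGraph.is3Clique_triple_iff.mpr ⟨hab, hac, hbc⟩)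
  have hα : ∀ I : Finset (Fin (n * (2 * (1 + n)) + 1)), (∀ a ∈ I, ∀ b ∈ I, ¬ Gᶜ.Adj a b) →
      I.card ≤ n - 1 := fun I hI => clique_indep G n h2 hn I hI
  obtain ⟨I, hI, hb⟩ := weak_indep _ Gᶜ htf n (by
    intro v
    refine (hα _ ?_).trans (by omega)
    intro a ha b hb
    simp only [Finset.mem_filter, Finset.mem_univ, true_and] at ha hb
    exact htf v a b ha hb)
  rw [Fintype.card_fin] at hb
  have h3 := hα I hI
  have h4 : I.card * (2 * (1 + n)) ≤ n * (2 * (1 + n)) := Nat.mul_le_mul_right _ (by omega)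
  omega

/-- `r(3,n)` is at least of order `n^(3/2)`. -/
theorem le_rNum (n : ℕ) (hn : 7200 ≤ n) :
    (n : ℝ) * Real.sqrt n / (8 * Real.sqrt 8) ≤ rNum 3 n := by
  set k := Nat.sqrt (n / 8) with hk
  have hk30 : 30 ≤ k := by
    rw [hk, Nat.le_sqrt]
    omega
  obtain ⟨q, hqp, hkq, hq2⟩ := Nat.exists_prime_lt_and_le_two_mul k (by omega)
  have h1 : k * k ≤ n / 8 := Nat.sqrt_le _
  have h2 : n / 8 < (k + 1) * (k + 1) := Nat.lt_succ_sqrt _
  have h3 : 2 * q ^ 2 ≤ n := by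
    have : q ^ 2 ≤ (2 * k) ^ 2 := Nat.pow_le_pow_left hq2 2
    have h4 : (2 * k) ^ 2 = 4 * (k * k) := by ring
    omega
  have h4 : n ≤ 8 * q ^ 2 := by
    have h5 : (k + 1) * (k + 1) ≤ q ^ 2 := by
      rw [sq]; exact Nat.mul_le_mul hkq hkq
    omega
  obtain ⟨H, htf, hα⟩ := exists_tf q hqp (by omega)
  have hall : ∀ N : ℕ, (∀ G : SimpleGraph (Fin N), (∃ s : Finset (Fin N), Gᶜ.IsNClique 3 s) ∨
      ∃ s : Finset (Fin N), G.IsNClique n s) → q ^ 3 < N := by
    intro N hmem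
    by_contra hle
    push Not at hle
    rcases hmem (H.comap (Fin.castLE hle))ᶜ with ⟨s, hs⟩ | ⟨s, hs⟩
    · rw [compl_compl] at hs
      obtain ⟨a, b, c, hab, hac, hbc, _⟩ := SimpleGraph.is3Clique_iff.mp hs
      exact htf _ _ _ hab hac hbc
    · have h5 := hα (s.map (Fin.castLEEmb hle)) (by
        intro a ha b hb hadj
        rw [Finset.mem_map] at ha hb
        obtain ⟨a', ha', rfl⟩ := ha
        obtain ⟨b', hb', rfl⟩ := hb
        by_cases hab : a' = b'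
        · rw [hab] at hadj
          exact H.loopless.irrefl _ hadj
        · have := hs.isClique ha' hb' hab
          rw [SimpleGraph.compl_adj] at this
          exact this.2 hadj)
      rw [Finset.card_map, hs.card_eq] at h5
      omega
  have hlow : q ^ 3 < rNum 3 n := hall _ (Nat.sInf_mem (ramsey3 n (by omega)))
  have h6 : (q : ℝ) ^ 3 ≤ rNum 3 n := by exact_mod_cast hlow.le
  refine le_trans ?_ h6
  have h8 : (0 : ℝ) < Real.sqrt 8 := Real.sqrt_pos.mpr (by norm_num)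
  rw [div_le_iff₀ (by positivity)]
  have h7 : (n : ℝ) ≤ 8 * q ^ 2 := by exact_mod_cast h4
  have h9 : Real.sqrt n ≤ Real.sqrt 8 * q := by
    calc Real.sqrt n ≤ Real.sqrt (8 * q ^ 2) := Real.sqrt_le_sqrt h7
      _ = Real.sqrt 8 * q := by
          rw [Real.sqrt_mul (by norm_num), Real.sqrt_sq (Nat.cast_nonneg _)]
  calc (n : ℝ) * Real.sqrt n ≤ (8 * q ^ 2) * (Real.sqrt 8 * q) :=
        mul_le_mul h7 h9 (Real.sqrt_nonneg _) (by positivity)
    _ = (q : ℝ) ^ 3 * (8 * Real.sqrt 8) := by ring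

end Pool.Agent.Helper710_TMix
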