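import Mathlib

/-!
Independent sets in triangle-free graphs of bounded degree: the average size of a
random independent set (hard-core model, activity `l`).
-/

set_option autoImplicit false
open Finset

namespace Pool.Agent.Helper710_TMix

variable {V : Type*} [Fintype V] [DecidableEq V]

/-- The independent sets of `G`. -/
def indepSets (G : SimpleGraph V) [DecidableRel G.Adj] : Finset (Finset V) :=
  univ.filter (fun I => ∀ a ∈ I, ∀ b ∈ I, ¬ G.Adj a b)

lemma mem_indepSets (G : SimpleGraph V) [DecidableRel G.Adj] (I : Finset V) :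
    I ∈ indepSets G ↔ ∀ a ∈ I, ∀ b ∈ I, ¬ G.Adj a b := by
  simp [indepSets]

lemma sum_pow_powerset (Y : Finset V) (l : ℝ) :
    ∑ B ∈ Y.powerset, l ^ B.card = (1 + l) ^ Y.card := by
  have h := Finset.sum_pow_mul_eq_add_pow l 1 Y
  simp only [one_pow, mul_one] at h
  rw [h, add_comm]

lemma sum_card_pow (Y : Finset V) (l : ℝ) :
    (1 + l) * ∑ B ∈ Y.powerset, l ^ B.card * (B.card : ℝ) = Y.card * l * (1 + l) ^ Y.card := by
  induction Y using Finset.induction_on with
  | empty => simp
  | insert a s ha ih =>
    rw [Finset.sum_powerset_insert ha]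
    have h2 : ∑ t ∈ s.powerset, l ^ (insert a t).card * ((insert a t).card : ℝ)
        = l * ∑ t ∈ s.powerset, l ^ t.card * (t.card : ℝ) + l * ∑ t ∈ s.powerset, l ^ t.card := by
      rw [Finset.mul_sum, Finset.mul_sum, ← Finset.sum_add_distrib]
      apply Finset.sum_congr rfl
      intro t ht
      have hat : a ∉ t := fun h => ha (Finset.mem_powerset.mp ht h)
      rw [Finset.card_insert_of_notMem hat]
      push_cast
      ring
    rw [h2, sum_pow_powerset, Finset.card_insert_of_notMem ha]
    push_cast
    have : (1 + l) * (∑ B ∈ s.powerset, l ^ B.card * (B.card : ℝ) +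
        (l * ∑ t ∈ s.powerset, l ^ t.card * (t.card : ℝ) + l * (1 + l) ^ s.card))
        = (1 + l) * ((1 + l) * ∑ B ∈ s.powerset, l ^ B.card * (B.card : ℝ))
          + l * (1 + l) ^ (s.card + 1) := by ring
    rw [this, ih]
    ring

/-- Available vertices. -/
def avail (G : SimpleGraph V) [DecidableRel G.Adj] (v : V) (A : Finset V) : Finset V :=
  univ.filter (fun u => G.Adj v u ∧ ∀ a ∈ A, ¬ G.Adj u a)

/-- Independent sets avoiding the neighbourhood of `v`. -/
def outer (G : SimpleGraph V) [DecidableRel G.Adj] (v : V) : Finset (Finset V) :=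
  (indepSets G).filter (fun A => ∀ u ∈ A, ¬ G.Adj v u)

lemma sum_fiber (G : SimpleGraph V) [DecidableRel G.Adj]
    (htf : ∀ a b c, G.Adj a b → G.Adj a c → ¬ G.Adj b c) (v : V) (F : Finset V → ℝ) :
    ∑ I ∈ indepSets G, F I
      = ∑ A ∈ outer G v, ∑ B ∈ (avail G v A).powerset, F (A ∪ B) := by
  rw [Finset.sum_sigma']
  apply Finset.sum_nbij' (i := fun I => (⟨I.filter (fun u => ¬ G.Adj v u), I.filter (fun u => G.Adj v u)⟩ :
      Σ _ : Finset V, Finset V)) (j := fun x => x.1 ∪ x.2)
  · intro I hI
    rw [mem_indepSets] at hI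
    simp only [Finset.mem_sigma, outer, Finset.mem_filter, mem_indepSets, Finset.mem_powerset, avail]
    refine ⟨⟨?_, ?_⟩, ?_⟩
    · intro a ha b hb
      exact hI a ha.1 b hb.1
    · intro u hu
      exact hu.2
    · intro u hu
      rw [Finset.mem_filter] at hu
      simp only [Finset.mem_filter, Finset.mem_univ, true_and]
      exact ⟨hu.2, fun a ha => hI u hu.1 a ha.1⟩
  · rintro ⟨A, B⟩ hx
    simp only [Finset.mem_sigma, outer, Finset.mem_filter, mem_indepSets, Finset.mem_powerset] at hx
    obtain ⟨⟨hA, hA2⟩, hB⟩ := hx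
    rw [mem_indepSets]
    have hB' : ∀ u ∈ B, G.Adj v u ∧ ∀ a ∈ A, ¬ G.Adj u a := by
      intro u hu
      have := hB hu
      simpa [avail] using this
    intro a ha b hb
    rw [Finset.mem_union] at ha hb
    rcases ha with ha | ha <;> rcases hb with hb | hb
    · exact hA a ha b hb
    · exact fun h => (hB' b hb).2 a ha h.symm
    · exact (hB' a ha).2 b hb
    · exact htf v a b (hB' a ha).1 (hB' b hb).1
  · intro I hI
    simp only
    rw [Finset.union_comm]
    exact Finset.filter_union_filter_not_eq _ _
  · rintro ⟨A, B⟩ hx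
    simp only [Finset.mem_sigma, outer, Finset.mem_filter, mem_indepSets, Finset.mem_powerset] at hx
    obtain ⟨⟨hA, hA2⟩, hB⟩ := hx
    have hB' : ∀ u ∈ B, G.Adj v u := by
      intro u hu
      have := hB hu
      simp [avail] at this
      exact this.1
    have h1 : (A ∪ B).filter (fun u => ¬ G.Adj v u) = A := by
      ext u
      simp only [Finset.mem_filter, Finset.mem_union]
      constructor
      · rintro ⟨h | h, h2⟩
        · exact h
        · exact absurd (hB' u h) h2
      · intro h
        exact ⟨Or.inl h, hA2 u h⟩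
    have h2 : (A ∪ B).filter (fun u => G.Adj v u) = B := by
      ext u
      simp only [Finset.mem_filter, Finset.mem_union]
      constructor
      · rintro ⟨h | h, h2⟩
        · exact absurd h2 (hA2 u h)
        · exact h
      · intro h
        exact ⟨Or.inr h, hB' u h⟩
    simp only [h1, h2]
  · intro I hI
    simp only
    congr 1
    rw [Finset.union_comm]
    exact (Finset.filter_union_filter_not_eq _ _).symm

lemma outer_pairing (G : SimpleGraph V) [DecidableRel G.Adj] (v : V) (l : ℝ) :
    (1 + l) * ∑ A ∈ (outer G v).filter (fun A => v ∈ A), l ^ A.card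
      = l * ∑ A ∈ outer G v, l ^ A.card := by
  have hsplit := Finset.sum_filter_add_sum_filter_not (outer G v) (fun A => v ∈ A) (fun A => l ^ A.card)
  have hbij : ∑ A ∈ (outer G v).filter (fun A => v ∈ A), l ^ A.card
      = ∑ A ∈ (outer G v).filter (fun A => ¬ v ∈ A), l * l ^ A.card := by
    apply Finset.sum_nbij' (i := fun A => A.erase v) (j := fun A => insert v A)
    · intro A hA
      simp only [outer, Finset.mem_filter, mem_indepSets] at hA ⊢
      refine ⟨⟨fun a ha b hb => hA.1.1 a (Finset.mem_of_mem_erase ha) b (Finset.mem_of_mem_erase hb),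
        fun u hu => hA.1.2 u (Finset.mem_of_mem_erase hu)⟩, Finset.notMem_erase v A⟩
    · intro A hA
      simp only [outer, Finset.mem_filter, mem_indepSets] at hA ⊢
      refine ⟨⟨?_, ?_⟩, Finset.mem_insert_self v A⟩
      · intro a ha b hb
        rw [Finset.mem_insert] at ha hb
        rcases ha with rfl | ha <;> rcases hb with rfl | hb
        · exact G.loopless.irrefl _
        · exact hA.1.2 b hb
        · exact fun h => hA.1.2 a ha h.symm
        · exact hA.1.1 a ha b hb
      · intro u hu
        rw [Finset.mem_insert] at hu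
        rcases hu with rfl | hu
        · exact G.loopless.irrefl _
        · exact hA.1.2 u hu
    · intro A hA
      rw [Finset.mem_filter] at hA
      exact Finset.insert_erase hA.2
    · intro A hA
      rw [Finset.mem_filter] at hA
      exact Finset.erase_insert hA.2
    · intro A hA
      rw [Finset.mem_filter] at hA
      have := Finset.card_erase_add_one hA.2
      rw [← this, pow_succ]
      ring
  rw [← Finset.mul_sum] at hbij
  rw [← hsplit, hbij]
  ring

lemma local_ineq (G : SimpleGraph V) [DecidableRel G.Adj]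
    (htf : ∀ a b c, G.Adj a b → G.Adj a c → ¬ G.Adj b c) (v : V) (l c : ℝ) (hl : 0 < l) :
    l * (1 + Real.log (1 + l) * c) * ∑ I ∈ indepSets G, l ^ I.card ≤
      Real.exp (Real.log (1 + l) * c) * (1 + l)
          * ∑ I ∈ (indepSets G).filter (fun I => v ∈ I), l ^ I.card
        + Real.log (1 + l) * (1 + l)
          * ∑ I ∈ indepSets G, l ^ I.card * ((I.filter (fun u => G.Adj v u)).card : ℝ) := by
  set β := Real.log (1 + l) with hβ
  have hl1 : (0 : ℝ) < 1 + l := by linarith
  -- first sum
  have hA : ∀ A ∈ outer G v, ∀ B ∈ (avail G v A).powerset, (A ∪ B).card = A.card + B.card := by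
    intro A hA B hB
    apply Finset.card_union_of_disjoint
    rw [Finset.disjoint_left]
    intro a ha hb
    simp only [outer, Finset.mem_filter] at hA
    have := Finset.mem_powerset.mp hB hb
    simp only [avail, Finset.mem_filter] at this
    exact hA.2 a ha this.2.1
  have hZ : ∑ I ∈ indepSets G, l ^ I.card
      = ∑ A ∈ outer G v, l ^ A.card * (1 + l) ^ (avail G v A).card := by
    rw [sum_fiber G htf v]
    apply Finset.sum_congr rfl
    intro A hAo
    rw [← sum_pow_powerset, Finset.mul_sum]
    apply Finset.sum_congr rfl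
    intro B hB
    rw [hA A hAo B hB, pow_add]
  have hT : (1 + l) * ∑ I ∈ indepSets G, l ^ I.card * ((I.filter (fun u => G.Adj v u)).card : ℝ)
      = ∑ A ∈ outer G v, l ^ A.card * ((avail G v A).card * l * (1 + l) ^ (avail G v A).card) := by
    rw [sum_fiber G htf v, Finset.mul_sum]
    apply Finset.sum_congr rfl
    intro A hAo
    rw [← sum_card_pow, Finset.mul_sum, Finset.mul_sum, Finset.mul_sum]
    apply Finset.sum_congr rfl
    intro B hB
    have h2 : (A ∪ B).filter (fun u => G.Adj v u) = B := by
      ext u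
      simp only [Finset.mem_filter, Finset.mem_union]
      simp only [outer, Finset.mem_filter] at hAo
      constructor
      · rintro ⟨h | h, h2⟩
        · exact absurd h2 (hAo.2 u h)
        · exact h
      · intro h
        have := Finset.mem_powerset.mp hB h
        simp only [avail, Finset.mem_filter] at this
        exact ⟨Or.inr h, this.2.1⟩
    rw [hA A hAo B hB, pow_add, h2]
    ring
  have hV : (1 + l) * ∑ I ∈ (indepSets G).filter (fun I => v ∈ I), l ^ I.card
      = ∑ A ∈ outer G v, l * l ^ A.card := by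
    have : (indepSets G).filter (fun I => v ∈ I) = (outer G v).filter (fun A => v ∈ A) := by
      ext A
      simp only [outer, Finset.mem_filter, mem_indepSets]
      constructor
      · rintro ⟨h1, h2⟩
        exact ⟨⟨h1, fun u hu => h1 v h2 u hu⟩, h2⟩
      · rintro ⟨⟨h1, _⟩, h2⟩
        exact ⟨h1, h2⟩
    rw [this, outer_pairing, Finset.mul_sum]
  have e1 : Real.exp (β * c) * (1 + l) * ∑ I ∈ (indepSets G).filter (fun I => v ∈ I), l ^ I.card
      = ∑ A ∈ outer G v, Real.exp (β * c) * (l * l ^ A.card) := by
    rw [mul_assoc, hV, Finset.mul_sum]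
  have e2 : β * (1 + l) * ∑ I ∈ indepSets G, l ^ I.card * ((I.filter (fun u => G.Adj v u)).card : ℝ)
      = ∑ A ∈ outer G v, β * (l ^ A.card * ((avail G v A).card * l * (1 + l) ^ (avail G v A).card)) := by
    rw [mul_assoc, hT, Finset.mul_sum]
  rw [e1, e2, hZ, ← Finset.sum_add_distrib, Finset.mul_sum]
  apply Finset.sum_le_sum
  intro A hAo
  set y := (avail G v A).card with hy
  have hpow : (1 + l) ^ y = Real.exp (β * y) := by
    rw [hβ, mul_comm, Real.exp_nat_mul, Real.exp_log hl1]
  have hexp : β * c - β * y + 1 ≤ Real.exp (β * c - β * y) := Real.add_one_le_exp _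
  have hmul : (β * c - β * y + 1) * Real.exp (β * y) ≤ Real.exp (β * c) := by
    calc (β * c - β * y + 1) * Real.exp (β * y) ≤ Real.exp (β * c - β * y) * Real.exp (β * y) :=
          mul_le_mul_of_nonneg_right hexp (Real.exp_pos _).le
      _ = Real.exp (β * c) := by rw [← Real.exp_add]; congr 1; ring
  have hlA : 0 ≤ l * l ^ A.card := by positivity
  have := mul_le_mul_of_nonneg_left hmul hlA
  rw [hpow]
  nlinarith [this]

/-- Lower bound for the independence number of a triangle-free graph of maximum degree at most `D`. -/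
theorem exists_indep (G : SimpleGraph V) [DecidableRel G.Adj]
    (htf : ∀ a b c, G.Adj a b → G.Adj a c → ¬ G.Adj b c) (D : ℕ)
    (hD : ∀ v, (univ.filter (fun u => G.Adj v u)).card ≤ D) (l c : ℝ) (hl : 0 < l) :
    ∃ I : Finset V, (∀ a ∈ I, ∀ b ∈ I, ¬ G.Adj a b) ∧
      (Fintype.card V : ℝ) * (l * (1 + Real.log (1 + l) * c)) ≤
        I.card * ((1 + l) * (Real.exp (Real.log (1 + l) * c) + Real.log (1 + l) * D)) := by
  by_contra hcon
  push_neg at hcon
  set β := Real.log (1 + l) with hβ
  have hβ0 : 0 < β := Real.log_pos (by linarith)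
  have hl1 : (0 : ℝ) < 1 + l := by linarith
  have hsum := Finset.sum_le_sum (fun v (_ : v ∈ (univ : Finset V)) => local_ineq G htf v l c hl)
  rw [Finset.sum_add_distrib, Finset.sum_const, ← Finset.mul_sum, ← Finset.mul_sum] at hsum
  have s1 : ∑ v : V, ∑ I ∈ (indepSets G).filter (fun I => v ∈ I), l ^ I.card
      = ∑ I ∈ indepSets G, l ^ I.card * (I.card : ℝ) := by
    simp_rw [Finset.sum_filter]
    rw [Finset.sum_comm]
    apply Finset.sum_congr rfl
    intro I _
    rw [← Finset.sum_filter]
    simp [mul_comm]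
  have s2 : ∑ v : V, ∑ I ∈ indepSets G, l ^ I.card * ((I.filter (fun u => G.Adj v u)).card : ℝ)
      ≤ ∑ I ∈ indepSets G, l ^ I.card * ((I.card : ℝ) * D) := by
    rw [Finset.sum_comm]
    apply Finset.sum_le_sum
    intro I _
    rw [← Finset.mul_sum]
    apply mul_le_mul_of_nonneg_left _ (by positivity)
    have : ∑ v : V, ((I.filter (fun u => G.Adj v u)).card : ℝ)
        = ∑ u ∈ I, ((univ.filter (fun v => G.Adj u v)).card : ℝ) := by
      have h1 : ∀ v : V, ((I.filter (fun u => G.Adj v u)).card : ℝ)
          = ∑ u ∈ I, if G.Adj v u then (1 : ℝ) else 0 := by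
        intro v
        rw [← Finset.sum_filter]
        simp
      have h2 : ∀ u : V, ((univ.filter (fun v => G.Adj u v)).card : ℝ)
          = ∑ v : V, if G.Adj v u then (1 : ℝ) else 0 := by
        intro u
        rw [← Finset.sum_filter]
        simp [G.adj_comm]
      simp_rw [h1, h2]
      rw [Finset.sum_comm]
    rw [this]
    calc ∑ u ∈ I, ((univ.filter (fun v => G.Adj u v)).card : ℝ) ≤ ∑ u ∈ I, (D : ℝ) := by
          apply Finset.sum_le_sum
          intro u _
          exact_mod_cast hD u
      _ = I.card * D := by simp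
  have hZpos : 0 < ∑ I ∈ indepSets G, l ^ I.card := by
    apply Finset.sum_pos
    · intro I _; positivity
    · exact ⟨∅, by simp [mem_indepSets]⟩
  have hlt : ∑ I ∈ indepSets G, l ^ I.card * (I.card * ((1 + l) * (Real.exp (β * c) + β * D)))
      < ∑ I ∈ indepSets G, l ^ I.card * ((Fintype.card V : ℝ) * (l * (1 + β * c))) := by
    apply Finset.sum_lt_sum_of_nonempty
    · exact ⟨∅, by simp [mem_indepSets]⟩
    · intro I hI
      apply mul_lt_mul_of_pos_left _ (by positivity)
      exact hcon I ((mem_indepSets G I).mp hI)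
  have e1 : ∑ I ∈ indepSets G, l ^ I.card * (I.card * ((1 + l) * (Real.exp (β * c) + β * D)))
      = (∑ I ∈ indepSets G, l ^ I.card * (I.card : ℝ)) * ((1 + l) * (Real.exp (β * c) + β * D)) := by
    rw [Finset.sum_mul]
    apply Finset.sum_congr rfl
    intro I _
    ring
  have e2 : ∑ I ∈ indepSets G, l ^ I.card * ((Fintype.card V : ℝ) * (l * (1 + β * c)))
      = (∑ I ∈ indepSets G, l ^ I.card) * ((Fintype.card V : ℝ) * (l * (1 + β * c))) := by
    rw [Finset.sum_mul]
  have e3 : ∑ I ∈ indepSets G, l ^ I.card * ((I.card : ℝ) * D)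
      = (∑ I ∈ indepSets G, l ^ I.card * (I.card : ℝ)) * D := by
    rw [Finset.sum_mul]
    apply Finset.sum_congr rfl
    intro I _
    ring
  rw [e1, e2] at hlt
  rw [s1] at hsum
  rw [e3] at s2
  have hs2 := mul_le_mul_of_nonneg_left s2 (by positivity : 0 ≤ β * (1 + l))
  rw [Finset.card_univ, nsmul_eq_mul] at hsum
  nlinarith [hsum, hlt, hs2]

end Pool.Agent.Helper710_TMix
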