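import Pool.Agent.Helper710_TMix.Basic
import Pool.Agent.Helper710_TMix.Ana

/-!
The order of a triangle-free graph with independence number at most `m` in which every second
neighbourhood induces a bipartite graph.
-/

set_option autoImplicit false
open Finset

namespace Pool.Agent.Helper710_TMix

/-- Triangle-free, and every second neighbourhood induces a bipartite graph. -/
structure BL {V : Type*} (H : SimpleGraph V) : Prop where
  tf : ∀ a b c, H.Adj a b → H.Adj a c → ¬ H.Adj b c
  bip : ∀ v, ∃ c : V → Prop, ∀ a b, L2 H v a → L2 H v b → H.Adj a b → (c a ↔ ¬ c b)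

lemma Nice.bl {V : Type*} [Fintype V] [DecidableEq V] {H : SimpleGraph V} (hN : Nice H) : BL H :=
  ⟨hN.tf, fun v => exists_bip hN v⟩

lemma BL.comap {V W : Type*} {H : SimpleGraph V} (hB : BL H) (f : W → V)
    (hf : Function.Injective f) : BL (H.comap f) := by
  have hL : ∀ v a, L2 (H.comap f) v a → L2 H (f v) (f a) := by
    rintro v a ⟨h1, h2, p, h3, h4⟩
    exact ⟨fun h => h1 (hf h), h2, f p, h3, h4⟩
  constructor
  · intro a b c hab hac hbc
    exact hB.tf (f a) (f b) (f c) hab hac hbc
  · intro v
    obtain ⟨c, hc⟩ := hB.bip (f v)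
    exact ⟨fun a => c (f a), fun a b ha hb hab => hc (f a) (f b) (hL v a ha) (hL v b hb) hab⟩

open Classical in
/-- If independent sets have at most `m` vertices, then there are at most `2 m - 2` vertices at
distance two from `v`. -/
theorem card_L2_BL {V : Type*} [Fintype V] {H : SimpleGraph V} (hN : BL H) (v : V) (m : ℕ)
    (hα : ∀ I : Finset V, (∀ a ∈ I, ∀ b ∈ I, ¬ H.Adj a b) → I.card ≤ m) :
    (univ.filter (fun a => L2 H v a)).card + 2 ≤ 2 * m := by
  obtain ⟨c, hc⟩ := hN.bip v
  set X := univ.filter (fun a => L2 H v a ∧ c a) with hX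
  set Y := univ.filter (fun a => L2 H v a ∧ ¬ c a) with hY
  have hXY : univ.filter (fun a => L2 H v a) = X ∪ Y := by
    ext a
    simp only [hX, hY, Finset.mem_filter, Finset.mem_univ, true_and, Finset.mem_union]
    tauto
  have hcard : (univ.filter (fun a => L2 H v a)).card ≤ X.card + Y.card := by
    rw [hXY]; exact Finset.card_union_le _ _
  have h1 : (insert v X).card ≤ m := by
    apply hα
    intro a ha b hb
    simp only [hX, Finset.mem_insert, Finset.mem_filter, Finset.mem_univ, true_and] at ha hb
    rcases ha with rfl | ha <;> rcases hb with rfl | hb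
    · exact H.loopless.irrefl _
    · exact hb.1.2.1
    · exact fun h => ha.1.2.1 h.symm
    · exact fun h => ((hc a b ha.1 hb.1 h).mp ha.2) hb.2
  have h2 : (insert v Y).card ≤ m := by
    apply hα
    intro a ha b hb
    simp only [hY, Finset.mem_insert, Finset.mem_filter, Finset.mem_univ, true_and] at ha hb
    rcases ha with rfl | ha <;> rcases hb with rfl | hb
    · exact H.loopless.irrefl _
    · exact hb.1.2.1
    · exact fun h => ha.1.2.1 h.symm
    · exact fun h => ha.2 ((hc a b ha.1 hb.1 h).mpr hb.2)
  have hvX : v ∉ X := fun h => (Finset.mem_filter.mp h).2.1.1 rfl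
  have hvY : v ∉ Y := fun h => (Finset.mem_filter.mp h).2.1.1 rfl
  rw [Finset.card_insert_of_notMem hvX] at h1
  rw [Finset.card_insert_of_notMem hvY] at h2
  omega

open Classical in
/-- The closed neighbourhood of a set of neighbours of `v` is small. -/
lemma card_cnb_BL {V : Type*} [Fintype V] [DecidableEq V] {H : SimpleGraph V}
    (hN : BL H) (v : V) (m : ℕ)
    (hα : ∀ I : Finset V, (∀ a ∈ I, ∀ b ∈ I, ¬ H.Adj a b) → I.card ≤ m)
    (S : Finset V) (hS : ∀ s ∈ S, H.Adj v s) :
    (cnb H S).card + 1 ≤ S.card + 2 * m := by
  have hL := card_L2_BL hN v m hα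
  have hsub : cnb H S ⊆ S ∪ insert v (univ.filter (fun a => L2 H v a)) := by
    intro x hx
    simp only [cnb, Finset.mem_filter, Finset.mem_univ, true_and] at hx
    simp only [Finset.mem_union, Finset.mem_insert, Finset.mem_filter, Finset.mem_univ, true_and]
    rcases hx with h | ⟨s, hs, hsx⟩
    · exact Or.inl h
    · right
      by_cases hxv : x = v
      · exact Or.inl hxv
      · right
        exact ⟨hxv, hN.tf s v x (hS s hs).symm hsx, s, hS s hs, hsx.symm⟩
  calc (cnb H S).card + 1
      ≤ (S ∪ insert v (univ.filter (fun a => L2 H v a))).card + 1 :=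
        Nat.add_le_add_right (Finset.card_le_card hsub) 1
    _ ≤ S.card + (insert v (univ.filter (fun a => L2 H v a))).card + 1 :=
        Nat.add_le_add_right (Finset.card_union_le _ _) 1
    _ ≤ S.card + ((univ.filter (fun a => L2 H v a)).card + 1) + 1 :=
        Nat.add_le_add_right (Nat.add_le_add_left (Finset.card_insert_le _ _) _) 1
    _ ≤ S.card + 2 * m := by omega

open Classical in
theorem main_BL (C : ℝ) (hC0 : 0 < C) (hC : 8 / 3 < C ^ 2) :
    ∃ K : ℝ, 0 ≤ K ∧ ∀ m : ℕ, ∀ (V : Type) [Fintype V] (H : SimpleGraph V), BL H →
      (∀ I : Finset V, (∀ a ∈ I, ∀ b ∈ I, ¬ H.Adj a b) → I.card ≤ m) →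
      (Fintype.card V : ℝ) ≤ K + psi C m := by
  obtain ⟨ε, hε0, hε1, hfin⟩ := final_contra C hC0 hC
  obtain ⟨D1, _, hsh⟩ := shearer ε hε0 hε1
  obtain ⟨m1, hm1, hcon⟩ := hfin D1
  refine ⟨(m1 * (2 * (1 + m1)) : ℕ), Nat.cast_nonneg _, ?_⟩
  set K : ℝ := ((m1 * (2 * (1 + m1)) : ℕ) : ℝ) with hK
  have hpsi0 : ∀ m : ℕ, 0 ≤ psi C m := by
    intro m
    unfold psi
    positivity
  intro m
  induction m using Nat.strong_induction_on with
  | _ m ih =>
    intro V _ H hT hα
    have hN := hT
    have hdegm : ∀ v, (univ.filter (fun u => H.Adj v u)).card ≤ m := by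
      intro v
      apply hα
      intro a ha b hb
      simp only [Finset.mem_filter, Finset.mem_univ, true_and] at ha hb
      exact hN.tf v a b ha hb
    by_cases hm : m < m1
    · obtain ⟨I, hI, hb⟩ := weak_indep V H hN.tf m hdegm
      have h1 : Fintype.card V ≤ m1 * (2 * (1 + m1)) := by
        calc Fintype.card V ≤ I.card * (2 * (1 + m)) := hb
          _ ≤ m1 * (2 * (1 + m1)) := by
              apply Nat.mul_le_mul ((hα I hI).trans hm.le)
              omega
      have h2 : (Fintype.card V : ℝ) ≤ K := by rw [hK]; exact_mod_cast h1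
      linarith [hpsi0 m]
    · push Not at hm
      by_contra hlt
      push Not at hlt
      have hVpos : 0 < Fintype.card V := by
        have : (0 : ℝ) < Fintype.card V := by
          have := hpsi0 m
          have hK0 : 0 ≤ K := Nat.cast_nonneg _
          linarith
        exact_mod_cast this
      have hVne : Nonempty V := Fintype.card_pos_iff.mp hVpos
      obtain ⟨v, _, hv⟩ := Finset.exists_max_image (univ : Finset V)
        (fun v => (univ.filter (fun u => H.Adj v u)).card) Finset.univ_nonempty
      set J := univ.filter (fun u => H.Adj v u) with hJ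
      set D := J.card with hD
      have hdeg : ∀ w, (univ.filter (fun u => H.Adj w u)).card ≤ D := fun w => hv w (Finset.mem_univ w)
      have hDm : D ≤ m := hdegm v
      have hJind : ∀ a ∈ J, ∀ b ∈ J, ¬ H.Adj a b := by
        intro a ha b hb
        simp only [hJ, Finset.mem_filter, Finset.mem_univ, true_and] at ha hb
        exact hN.tf v a b ha hb
      have hK0 : 0 ≤ K := Nat.cast_nonneg _
      have c1 : psi C m < (Fintype.card V : ℝ) := by linarith
      have c2 : (Fintype.card V : ℝ) ≤ m * (2 * (1 + D)) := by
        obtain ⟨I, hI, hb⟩ := weak_indep V H hN.tf D hdeg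
        have : Fintype.card V ≤ m * (2 * (1 + D)) :=
          hb.trans (Nat.mul_le_mul_right _ (hα I hI))
        exact_mod_cast this
      have c3 : D1 ≤ D → (Fintype.card V : ℝ) * ((1 - ε) * Real.log D) ≤ m * D := by
        intro hD1
        obtain ⟨I, hI, hb⟩ := hsh D hD1 V H hN.tf hdeg
        refine hb.trans ?_
        apply mul_le_mul_of_nonneg_right _ (Nat.cast_nonneg _)
        exact_mod_cast hα I hI
      have hfinal := hcon m hm D hDm _ c1 c2 c3
      have hm0 : (1 : ℝ) ≤ m := by exact_mod_cast hm1.trans hm
      by_cases hD0 : D = 0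
      · rw [hD0] at hfinal
        simp only [Nat.cast_zero, sub_zero, sub_self, zero_add] at hfinal
        linarith
      · -- expansion
        have hcnb := card_cnb_BL hN v m hα J (by
          intro s hs
          simp only [hJ, Finset.mem_filter, Finset.mem_univ, true_and] at hs
          exact hs)
        set W := {x : V // x ∉ cnb H J} with hW
        have hIH := ih (m - D) (by omega) W (H.comap Subtype.val) (hT.comap _ Subtype.val_injective) (by
          intro I hI
          have hIJ : (I.map ⟨Subtype.val, Subtype.val_injective⟩ ∪ J).card ≤ m := by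
            apply hα
            intro a ha b hb
            rw [Finset.mem_union] at ha hb
            have hout : ∀ x : W, ∀ j ∈ J, ¬ H.Adj j x.1 := by
              intro x j hj hadj
              apply x.2
              simp only [cnb, Finset.mem_filter, Finset.mem_univ, true_and]
              exact Or.inr ⟨j, hj, hadj⟩
            rcases ha with ha | ha <;> rcases hb with hb | hb
            · rw [Finset.mem_map] at ha hb
              obtain ⟨a', ha', rfl⟩ := ha
              obtain ⟨b', hb', rfl⟩ := hb
              exact hI a' ha' b' hb'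
            · rw [Finset.mem_map] at ha
              obtain ⟨a', ha', rfl⟩ := ha
              exact fun h => hout a' b hb h.symm
            · rw [Finset.mem_map] at hb
              obtain ⟨b', hb', rfl⟩ := hb
              exact hout b' a ha
            · exact hJind a ha b hb
          rw [Finset.card_union_of_disjoint] at hIJ
          · rw [Finset.card_map] at hIJ
            omega
          · rw [Finset.disjoint_left]
            intro a ha hb
            rw [Finset.mem_map] at ha
            obtain ⟨a', _, rfl⟩ := ha
            apply a'.2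
            simp only [cnb, Finset.mem_filter, Finset.mem_univ, true_and]
            exact Or.inl hb)
        have hWcard : Fintype.card W + (cnb H J).card = Fintype.card V := by
          have h1 : Fintype.card W = (univ.filter (fun x => x ∉ cnb H J)).card :=
            Fintype.card_subtype _
          rw [h1, ← Finset.card_univ (α := V)]
          have h2 := Finset.card_filter_add_card_filter_not (s := (univ : Finset V)) (fun x => x ∈ cnb H J)
          have h3 : univ.filter (fun x => x ∈ cnb H J) = cnb H J := by
            ext x; simp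
          rw [h3] at h2
          omega
        have hWr : (Fintype.card W : ℝ) + (cnb H J).card = Fintype.card V := by exact_mod_cast hWcard
        have hcr : ((cnb H J).card : ℝ) + 1 ≤ D + 2 * m := by exact_mod_cast hcnb
        rw [Nat.cast_sub hDm] at hIH
        linarith

end Pool.Agent.Helper710_TMix
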