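import Pool.Agent.Helper710_TMix.Basic
import Pool.Agent.Helper710_TMix.Ana

/-!
The order of a graph with independence number at most `m` whose complement has no
irredundant set of size three.
-/

set_option autoImplicit false
open Finset

namespace Pool.Agent.Helper710_TMix

open Classical in
theorem main_T (C : ℝ) (hC0 : 0 < C) (hC : 8 / 3 < C ^ 2) :
    ∃ K : ℝ, 0 ≤ K ∧ ∀ m : ℕ, ∀ (V : Type) [Fintype V] (H : SimpleGraph V), TG H →
      (∀ I : Finset V, (∀ a ∈ I, ∀ b ∈ I, ¬ H.Adj a b) → I.card ≤ m) →
      (Fintype.card V : ℝ) ≤ K + psi C m := by
  obtain ⟨ε, hε0, hε1, hfin⟩ := final_contra C hC0 hC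
  obtain ⟨D1, _, hsh⟩ := shearer ε hε0 hε1
  obtain ⟨m1, hm1, hcon⟩ := hfin D1
  refine ⟨(m1 * (2 * (1 + m1)) : ℕ), Nat.cast_nonneg _, ?_⟩
  set K : ℝ := ((m1 * (2 * (1 + m1)) : ℕ) : ℝ) with hK
  have hpsi0 : ∀ m : ℕ, 0 ≤ psi C m := by
    intro m
    unfold psi
    positivity
  intro m
  induction m using Nat.strong_induction_on with
  | _ m ih =>
    intro V _ H hT hα
    have hN := hT.nice
    have hdegm : ∀ v, (univ.filter (fun u => H.Adj v u)).card ≤ m := by
      intro v
      apply hα
      intro a ha b hb
      simp only [Finset.mem_filter, Finset.mem_univ, true_and] at ha hb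
      exact hN.tf v a b ha hb
    by_cases hm : m < m1
    · obtain ⟨I, hI, hb⟩ := weak_indep V H hN.tf m hdegm
      have h1 : Fintype.card V ≤ m1 * (2 * (1 + m1)) := by
        calc Fintype.card V ≤ I.card * (2 * (1 + m)) := hb
          _ ≤ m1 * (2 * (1 + m1)) := by
              apply Nat.mul_le_mul ((hα I hI).trans hm.le)
              omega
      have h2 : (Fintype.card V : ℝ) ≤ K := by rw [hK]; exact_mod_cast h1
      linarith [hpsi0 m]
    · push Not at hm
      by_contra hlt
      push Not at hlt
      have hVpos : 0 < Fintype.card V := by
        have : (0 : ℝ) < Fintype.card V := by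
          have := hpsi0 m
          have hK0 : 0 ≤ K := Nat.cast_nonneg _
          linarith
        exact_mod_cast this
      have hVne : Nonempty V := Fintype.card_pos_iff.mp hVpos
      obtain ⟨v, _, hv⟩ := Finset.exists_max_image (univ : Finset V)
        (fun v => (univ.filter (fun u => H.Adj v u)).card) Finset.univ_nonempty
      set J := univ.filter (fun u => H.Adj v u) with hJ
      set D := J.card with hD
      have hdeg : ∀ w, (univ.filter (fun u => H.Adj w u)).card ≤ D := fun w => hv w (Finset.mem_univ w)
      have hDm : D ≤ m := hdegm v
      have hJind : ∀ a ∈ J, ∀ b ∈ J, ¬ H.Adj a b := by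
        intro a ha b hb
        simp only [hJ, Finset.mem_filter, Finset.mem_univ, true_and] at ha hb
        exact hN.tf v a b ha hb
      have hK0 : 0 ≤ K := Nat.cast_nonneg _
      have c1 : psi C m < (Fintype.card V : ℝ) := by linarith
      have c2 : (Fintype.card V : ℝ) ≤ m * (2 * (1 + D)) := by
        obtain ⟨I, hI, hb⟩ := weak_indep V H hN.tf D hdeg
        have : Fintype.card V ≤ m * (2 * (1 + D)) :=
          hb.trans (Nat.mul_le_mul_right _ (hα I hI))
        exact_mod_cast this
      have c3 : D1 ≤ D → (Fintype.card V : ℝ) * ((1 - ε) * Real.log D) ≤ m * D := by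
        intro hD1
        obtain ⟨I, hI, hb⟩ := hsh D hD1 V H hN.tf hdeg
        refine hb.trans ?_
        apply mul_le_mul_of_nonneg_right _ (Nat.cast_nonneg _)
        exact_mod_cast hα I hI
      have hfinal := hcon m hm D hDm _ c1 c2 c3
      have hm0 : (1 : ℝ) ≤ m := by exact_mod_cast hm1.trans hm
      by_cases hD0 : D = 0
      · rw [hD0] at hfinal
        simp only [Nat.cast_zero, sub_zero, sub_self, zero_add] at hfinal
        linarith
      · -- expansion
        have hcnb := card_cnb_nbr hN v m hα J (by
          intro s hs
          simp only [hJ, Finset.mem_filter, Finset.mem_univ, true_and] at hs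
          exact hs)
        set W := {x : V // x ∉ cnb H J} with hW
        have hIH := ih (m - D) (by omega) W (H.comap Subtype.val) (hT.comap _) (by
          intro I hI
          have hIJ : (I.map ⟨Subtype.val, Subtype.val_injective⟩ ∪ J).card ≤ m := by
            apply hα
            intro a ha b hb
            rw [Finset.mem_union] at ha hb
            have hout : ∀ x : W, ∀ j ∈ J, ¬ H.Adj j x.1 := by
              intro x j hj hadj
              apply x.2
              simp only [cnb, Finset.mem_filter, Finset.mem_univ, true_and]
              exact Or.inr ⟨j, hj, hadj⟩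
            rcases ha with ha | ha <;> rcases hb with hb | hb
            · rw [Finset.mem_map] at ha hb
              obtain ⟨a', ha', rfl⟩ := ha
              obtain ⟨b', hb', rfl⟩ := hb
              exact hI a' ha' b' hb'
            · rw [Finset.mem_map] at ha
              obtain ⟨a', ha', rfl⟩ := ha
              exact fun h => hout a' b hb h.symm
            · rw [Finset.mem_map] at hb
              obtain ⟨b', hb', rfl⟩ := hb
              exact hout b' a ha
            · exact hJind a ha b hb
          rw [Finset.card_union_of_disjoint] at hIJ
          · rw [Finset.card_map] at hIJ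
            omega
          · rw [Finset.disjoint_left]
            intro a ha hb
            rw [Finset.mem_map] at ha
            obtain ⟨a', _, rfl⟩ := ha
            apply a'.2
            simp only [cnb, Finset.mem_filter, Finset.mem_univ, true_and]
            exact Or.inl hb)
        have hWcard : Fintype.card W + (cnb H J).card = Fintype.card V := by
          have h1 : Fintype.card W = (univ.filter (fun x => x ∉ cnb H J)).card :=
            Fintype.card_subtype _
          rw [h1, ← Finset.card_univ (α := V)]
          have h2 := Finset.card_filter_add_card_filter_not (s := (univ : Finset V)) (fun x => x ∈ cnb H J)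
          have h3 : univ.filter (fun x => x ∈ cnb H J) = cnb H J := by
            ext x; simp
          rw [h3] at h2
          omega
        have hWr : (Fintype.card W : ℝ) + (cnb H J).card = Fintype.card V := by exact_mod_cast hWcard
        have hcr : ((cnb H J).card : ℝ) + 1 ≤ D + 2 * m := by exact_mod_cast hcnb
        rw [Nat.cast_sub hDm] at hIH
        linarith

end Pool.Agent.Helper710_TMix
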